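import Pool.Agent.Lib.MP_b5d28a_nt.H33.Expand

/-! A root forces a congruence at every large prime with a carry. -/

open Finset

namespace Pool.Agent.Lib.MP_b5d28a_nt.H33

theorem stirling_period {p : ℕ} [hp : Fact p.Prime] {r : ℕ} (hr : 1 ≤ r) (a : ℕ) :
    ∀ i, i < p → (((r + a * (p - 1)).stirlingSecond i : ℕ) : ZMod p) = r.stirlingSecond i := by
  intro i
  induction i using Nat.strong_induction_on with
  | _ i ih =>
    intro hi
    have h1 := congrArg (Nat.cast : ℕ → ZMod p) (pow_eq_sum_stirling i i le_rfl (r + a * (p - 1)))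
    have h2 := congrArg (Nat.cast : ℕ → ZMod p) (pow_eq_sum_stirling i i le_rfl r)
    push_cast at h1 h2
    have h3 : (i : ZMod p) ^ (r + a * (p - 1)) = (i : ZMod p) ^ r := by
      rcases eq_or_ne (i : ZMod p) 0 with h | h
      · rw [h, zero_pow (by omega), zero_pow (by omega)]
      · rw [pow_add, mul_comm a, pow_mul, ZMod.pow_card_sub_one_eq_one h, one_pow, mul_one]
    rw [h3, h2, sum_range_succ, sum_range_succ] at h1
    have h4 : ∑ x ∈ range i, ((r + a * (p - 1)).stirlingSecond x : ZMod p) * (i.descFactorial x) =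
        ∑ x ∈ range i, (r.stirlingSecond x : ZMod p) * (i.descFactorial x) :=
      sum_congr rfl fun x hx => by
        rw [ih x (mem_range.mp hx) (lt_trans (mem_range.mp hx) hi)]
    rw [h4, add_right_inj, Nat.descFactorial_self] at h1
    have h5 : ((i.factorial : ℕ) : ZMod p) ≠ 0 := by
      rw [Ne, ZMod.natCast_eq_zero_iff, hp.out.dvd_factorial]; omega
    exact (mul_right_cancel₀ h5 h1).symm

theorem choose_small_mod {p : ℕ} [hp : Fact p.Prime] (n : ℕ) {i : ℕ} (hi : i < p) :
    p ∣ n.choose i ↔ n % p < i := by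
  have h := Choose.choose_modEq_choose_mod_mul_choose_div_nat (n := n) (k := i) (p := p)
  rw [Nat.mod_eq_of_lt hi, Nat.div_eq_of_lt hi, Nat.choose_zero_right, mul_one] at h
  rw [(Nat.ModEq.dvd_iff h (dvd_refl p))]
  constructor
  · intro hd
    by_contra hle
    have h1 : (n % p).choose i ∣ (n % p).factorial := by
      rw [← Nat.choose_mul_factorial_mul_factorial (not_lt.mp hle), mul_assoc]
      exact Dvd.intro _ rfl
    have := (hp.out.dvd_factorial).mp (dvd_trans hd h1)
    have := Nat.mod_lt n hp.out.pos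
    omega
  · intro hlt
    rw [Nat.choose_eq_zero_of_lt hlt]; exact dvd_zero p

theorem carry_dvd {s e n p c : ℕ} [hp : Fact p.Prime] (he : 1 ≤ e) (hn : s < n) (hpn : n ≤ p ^ 2)
    (hc : n % p = c + 1) (hcp : c + 2 < p) (hs : c + 1 ≤ s % p) (hs2 : c + 2 ≤ s)
    (hS : ∀ i, c + 2 < i → i < p → p ∣ e.stirlingSecond i) (h : H s e n = 0) :
    (p : ℤ) ∣ (e.stirlingSecond (c + 1) : ℤ) * ((n : ℤ) - (c + 2)) -
      e.stirlingSecond (c + 2) * ((s : ℤ) - (c + 1)) * (c + 2) := by
  have h0 := sum_eq_zero_of_H he hn h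
  have hn1 : (n - 1) % p = c := by
    have h1 := Nat.div_add_mod n p
    rw [show n - 1 = c + p * (n / p) by omega, Nat.add_mul_mod_self_left,
      Nat.mod_eq_of_lt (by omega)]
  set M := (n - 1).choose (c + 1) with hM
  have hpM : p ∣ M := (choose_small_mod _ (by omega)).mpr (by omega)
  have hM0 : 0 < M := Nat.choose_pos (by omega)
  set f : ℕ → ℚ := fun i => (e.stirlingSecond i * s.choose i : ℚ) *
      ((-1) ^ i * i.factorial / (n - 1).choose i) with hf
  have hsub : ({c + 1, c + 2} : Finset ℕ) ⊆ range (s + 1) := by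
    intro x hx
    simp only [mem_insert, mem_singleton] at hx
    rw [mem_range]; omega
  rw [← sum_sdiff hsub, sum_pair (by omega)] at h0
  have hp1 : (1 : ℚ) < p := by exact_mod_cast hp.out.one_lt
  have hrest : padicNorm p (∑ i ∈ range (s + 1) \ {c + 1, c + 2}, f i * M) < 1 := by
    refine padicNorm.sum_lt' (fun i hi => ?_) one_pos
    simp only [mem_sdiff, mem_range, mem_insert, mem_singleton] at hi
    have hC : 0 < (n - 1).choose i := Nat.choose_pos (by omega)
    have hCq : ((n - 1).choose i : ℚ) ≠ 0 := by exact_mod_cast hC.ne'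
    have hMq : (M : ℚ) ≠ 0 := by exact_mod_cast hM0.ne'
    have e1 : f i * M = ((((-1) ^ i * (e.stirlingSecond i * s.choose i * i.factorial) : ℤ)) : ℚ) *
        ((M : ℚ) / (n - 1).choose i) := by
      simp only [hf]; push_cast; field_simp
    rw [e1, padicNorm.mul]
    rcases lt_or_ge i (c + 1) with hlt | hge
    · refine lt_of_le_of_lt (mul_le_of_le_one_left (padicNorm.nonneg _) (padicNorm.of_int _)) ?_
      rw [padicNorm.div, (padicNorm.nat_eq_one_iff ((n - 1).choose i)).mpr
        (fun hd => by have := (choose_small_mod _ (by omega)).mp hd; omega), div_one]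
      exact (padicNorm.nat_lt_one_iff _).mpr hpM
    · have h2 : padicNorm p ((M : ℚ) / (n - 1).choose i) ≤ 1 := by
        rw [padicNorm.div, padicNorm.eq_zpow_of_nonzero hMq, padicNorm.eq_zpow_of_nonzero hCq,
          padicValRat.of_nat, padicValRat.of_nat, div_le_one (zpow_pos (by linarith) _),
          zpow_le_zpow_iff_right₀ hp1]
        have a1 : 1 ≤ padicValNat p M := one_le_padicValNat_of_dvd hM0.ne' hpM
        have a2 := Nat.factorization_choose_le_one (p := p) (n := n - 1) (k := i) (by omega)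
        rw [Nat.factorization_def _ hp.out] at a2
        omega
      refine lt_of_le_of_lt (mul_le_of_le_one_right (padicNorm.nonneg _) h2) ?_
      rw [padicNorm.int_lt_one_iff]
      refine Dvd.dvd.mul_left ?_ _
      rcases lt_or_ge i p with hip | hip
      · exact Dvd.dvd.mul_right (Dvd.dvd.mul_right
          (Int.natCast_dvd_natCast.mpr (hS i (by omega) hip)) _) _
      · exact Dvd.dvd.mul_left (Int.natCast_dvd_natCast.mpr (hp.out.dvd_factorial.mpr hip)) _
  set B : ℤ := (e.stirlingSecond (c + 1) : ℤ) * ((n : ℤ) - (c + 2)) -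
      e.stirlingSecond (c + 2) * ((s : ℤ) - (c + 1)) * (c + 2) with hB
  have hmain : (f (c + 1) + f (c + 2)) * M * (((n : ℤ) - (c + 2) : ℤ) : ℚ) =
      (((-1) ^ (c + 1) * ((c + 1).factorial * s.choose (c + 1)) * B : ℤ) : ℚ) := by
    have a1 := congrArg (Nat.cast : ℕ → ℚ) (Nat.choose_succ_right_eq (n - 1) (c + 1))
    have a2 := congrArg (Nat.cast : ℕ → ℚ) (Nat.choose_succ_right_eq s (c + 1))
    rw [show n - 1 - (c + 1) = n - (c + 2) by omega] at a1
    push_cast [Nat.cast_sub (show c + 2 ≤ n by omega), Nat.cast_sub (show c + 1 ≤ s by omega)]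
      at a1 a2
    have hMq : (M : ℚ) ≠ 0 := by exact_mod_cast hM0.ne'
    have hCq : ((n - 1).choose (c + 2) : ℚ) ≠ 0 := by
      exact_mod_cast (Nat.choose_pos (by omega)).ne'
    have a3 : (M : ℚ) * ((n : ℚ) - (c + 2)) = (n - 1).choose (c + 2) * (c + 2) := by
      rw [hM]; linear_combination -a1
    have a4 : f (c + 1) * M =
        (-1) ^ (c + 1) * ((c + 1).factorial * s.choose (c + 1)) * e.stirlingSecond (c + 1) := by
      simp only [hf, ← hM]; field_simp
    have a5 : f (c + 2) * (n - 1).choose (c + 2) =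
        (-1) ^ (c + 2) * ((c + 2).factorial * s.choose (c + 2)) * e.stirlingSecond (c + 2) := by
      simp only [hf]; field_simp
    have a6 : ((c + 2).factorial : ℚ) = (c + 2) * (c + 1).factorial := by
      rw [Nat.factorial_succ (c + 1)]; push_cast; ring
    rw [a6] at a5
    rw [hB]
    push_cast
    linear_combination ((n : ℚ) - (c + 2)) * a4 + f (c + 2) * a3 + ((c : ℚ) + 2) * a5 +
      ((-1) ^ (c + 2) * (c + 2) * (c + 1).factorial * e.stirlingSecond (c + 2) : ℚ) * a2
  have hsum : (f (c + 1) + f (c + 2)) * M = -∑ i ∈ range (s + 1) \ {c + 1, c + 2}, f i * M := by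
    rw [← sum_mul]; linear_combination (M : ℚ) * h0
  have hlt : padicNorm p
      ((((-1) ^ (c + 1) * ((c + 1).factorial * s.choose (c + 1)) * B : ℤ)) : ℚ) < 1 := by
    rw [← hmain, hsum, padicNorm.mul, padicNorm.neg]
    exact lt_of_le_of_lt (mul_le_of_le_one_right (padicNorm.nonneg _) (padicNorm.of_int _)) hrest
  rw [padicNorm.int_lt_one_iff] at hlt
  have hpi : Prime (p : ℤ) := Nat.prime_iff_prime_int.mp hp.out
  rcases hpi.dvd_or_dvd hlt with h1 | h1
  · exfalso
    rcases hpi.dvd_or_dvd h1 with h2 | h2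
    · exact hpi.not_dvd_one (dvd_neg.mp (hpi.dvd_of_dvd_pow h2))
    · rcases hpi.dvd_or_dvd h2 with h3 | h3
      · have := hp.out.dvd_factorial.mp (Int.natCast_dvd_natCast.mp h3); omega
      · have := (choose_small_mod _ (by omega)).mp (Int.natCast_dvd_natCast.mp h3); omega
  · exact h1

/-- The two usable cases. -/
theorem H_ne_zero_carry {s e n p a w c : ℕ} (hp : p.Prime) (hn : s < n) (hpn : n ≤ p ^ 2)
    (hc : n = a * p + (c + 1)) (hcp : c + 2 < p) (hs : c + 1 ≤ s % p) (hs2 : c + 2 ≤ s)
    (hw : w ≤ 1) (he : e = c + 1 + w + a * (p - 1)) (hd : ¬ (p : ℤ) ∣ (n : ℤ) - 2 * s) :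
    H s e n ≠ 0 := by
  have := Fact.mk hp
  intro h
  have hmod : n % p = c + 1 := by
    rw [hc, add_comm, Nat.add_mul_mod_self_right, Nat.mod_eq_of_lt (by omega)]
  have hper := stirling_period (p := p) (r := c + 1 + w) (by omega) a
  rw [← he] at hper
  have h1 := carry_dvd (by omega) hn hpn hmod hcp hs hs2 (fun i i1 i2 => by
    rw [← ZMod.natCast_eq_zero_iff, hper i i2, Nat.stirlingSecond_eq_zero_of_lt (by omega)]
    simp) h
  rw [← ZMod.intCast_zmod_eq_zero_iff_dvd] at h1 hd
  push_cast at h1 hd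
  rw [hper _ (by omega), hper _ hcp] at h1
  have hn' : (n : ZMod p) = c + 1 := by rw [hc]; push_cast; simp
  rw [hn'] at h1 hd
  rcases Nat.le_one_iff_eq_zero_or_eq_one.mp hw with rfl | rfl
  · rw [Nat.add_zero, Nat.stirlingSecond_self, Nat.stirlingSecond_eq_zero_of_lt (by omega)] at h1
    have : (1 : ZMod p) = 0 := by push_cast at h1; linear_combination -h1
    exact one_ne_zero this
  · rw [Nat.stirlingSecond_succ_self_left, show c + 1 + 1 = c + 2 by ring,
      Nat.stirlingSecond_self] at h1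
    have h2 := congrArg (Nat.cast : ℕ → ZMod p) (Nat.choose_succ_right_eq (c + 2) 1)
    rw [Nat.choose_one_right, show c + 2 - 1 = c + 1 by omega] at h2
    push_cast at h1 h2
    have h3 : ((c + 2 : ℕ) : ZMod p) ≠ 0 := by
      rw [Ne, ZMod.natCast_eq_zero_iff]
      exact fun hd => by have := Nat.le_of_dvd (by omega) hd; omega
    push_cast at h3
    refine hd (mul_left_cancel₀ h3 ?_)
    linear_combination 2 * h1 + h2

end Pool.Agent.Lib.MP_b5d28a_nt.H33
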