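import Pool.Agent.Lib.MP_b5d28a_nt.Sign

/-! Eulerian numbers as values `H s e (e + 1)`, their growth, and positivity of differences. -/

open Finset

namespace Pool.Agent.Lib.MP_b5d28a_nt.H33

theorem H_zero (e n : ℕ) : H 0 e n = 0 := by simp [H]

theorem H_one (e n : ℕ) : H 1 e n = 1 := by simp [H]

theorem H_pascal (t e n : ℕ) : H (t + 1) e (n + 1) = H (t + 1) e n - H t e n := by
  simp only [H]
  rw [sum_range_succ', sum_range_succ' (fun j => (-1 : ℤ) ^ j * (((t + 1 - j) ^ e * n.choose j : ℕ) : ℤ))]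
  have : ∑ j ∈ range t, (-1 : ℤ) ^ (j + 1) *
        (((t + 1 - (j + 1)) ^ e * (n + 1).choose (j + 1) : ℕ) : ℤ) =
      ∑ j ∈ range t, (-1 : ℤ) ^ (j + 1) * (((t + 1 - (j + 1)) ^ e * n.choose (j + 1) : ℕ) : ℤ) -
        ∑ j ∈ range t, (-1 : ℤ) ^ j * (((t - j) ^ e * n.choose j : ℕ) : ℤ) := by
    rw [← sum_sub_distrib]
    refine sum_congr rfl fun j _ => ?_
    rw [Nat.choose_succ_succ', show t + 1 - (j + 1) = t - j by omega]
    push_cast; ring
  rw [this]
  simp only [Nat.choose_zero_right]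
  ring

theorem H_succ (t e n : ℕ) :
    H (t + 1) (e + 1) (n + 1) = (t + 1) * H (t + 1) e (n + 1) + (n + 1) * H t e n := by
  simp only [H]
  rw [mul_sum, mul_sum, sum_range_succ', sum_range_succ' (fun j => ((t : ℤ) + 1) * _),
    add_right_comm, ← sum_add_distrib]
  congr 1
  · refine sum_congr rfl fun j hj => ?_
    have hj' := mem_range.mp hj
    have h1 := congrArg (Nat.cast : ℕ → ℤ) (Nat.add_one_mul_choose_eq n j)
    rw [show t + 1 - (j + 1) = t - j by omega]
    push_cast [Nat.cast_sub hj'.le] at h1 ⊢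
    linear_combination (-(-1) ^ j * ((t : ℤ) - j) ^ e) * h1
  · simp only [Nat.choose_zero_right]
    push_cast; ring

theorem euler_rec (t e : ℕ) : H (t + 1) (e + 1) (e + 1 + 1) =
    (t + 1) * H (t + 1) e (e + 1) + (e + 1 - t) * H t e (e + 1) := by
  rw [H_succ, H_pascal]; push_cast; ring

theorem euler_inv (e : ℕ) : (∀ t, 0 ≤ H t e (e + 1)) ∧ (∀ t, e + 1 < t → H t e (e + 1) = 0) ∧
    (∀ t : ℕ, ((e : ℤ) + 1 - 2 * (t + 1)) * H t e (e + 1) ≤ (t + 1) * H (t + 1) e (e + 1)) ∧
    (∀ t, t + 1 ≤ e → 0 < H (t + 1) e (e + 1)) := by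
  induction e with
  | zero =>
    have h2 : ∀ t, 0 + 1 < t → H t 0 (0 + 1) = 0 := by
      intro t ht
      obtain ⟨u, rfl⟩ : ∃ u, t = u + 1 + 1 := ⟨t - 2, by omega⟩
      rw [H, sum_range_succ', sum_range_succ']
      simp
    have h1 : ∀ t, 0 ≤ H t 0 (0 + 1) := by
      intro t
      rcases t with _ | _ | t
      · simp [H_zero]
      · simp [H_one]
      · rw [h2 _ (by omega)]
    refine ⟨h1, h2, fun t => ?_, fun t ht => by omega⟩
    have := h1 t
    have := h1 (t + 1)
    push_cast
    nlinarith [(Nat.cast_nonneg t : (0 : ℤ) ≤ t)]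
  | succ e ih =>
    obtain ⟨i1, i2, i3, i4⟩ := ih
    have hc : ∀ t : ℕ, 0 ≤ ((e : ℤ) + 1 - t) * H t e (e + 1) := by
      intro t
      rcases le_or_gt t (e + 1) with h | h
      · exact mul_nonneg (by have : (t : ℤ) ≤ e + 1 := by exact_mod_cast h
                             linarith) (i1 t)
      · rw [i2 t h, mul_zero]
    have h1 : ∀ t, 0 ≤ H t (e + 1) (e + 1 + 1) := by
      intro t
      rcases t with _ | t
      · simp [H_zero]
      · rw [euler_rec]
        exact add_nonneg (mul_nonneg (by positivity) (i1 _)) (hc t)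
    refine ⟨h1, fun t ht => ?_, fun t => ?_, fun t ht => ?_⟩
    · obtain ⟨u, rfl⟩ : ∃ u, t = u + 1 := ⟨t - 1, by omega⟩
      rw [euler_rec, i2 _ (by omega), i2 _ (by omega)]; simp
    · rcases t with _ | u
      · rw [H_zero, mul_zero]; exact mul_nonneg (by positivity) (h1 _)
      · rcases le_or_gt e (2 * u + 2) with h | h
        · have h' : (e : ℤ) ≤ 2 * u + 2 := by exact_mod_cast h
          refine le_trans (mul_nonpos_of_nonpos_of_nonneg (by push_cast; linarith) (h1 _)) ?_
          exact mul_nonneg (by positivity) (h1 _)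
        · obtain ⟨τ, rfl⟩ : ∃ τ, e = τ + 2 * u + 3 := ⟨e - (2 * u + 3), by omega⟩
          rw [euler_rec u (τ + 2 * u + 3), euler_rec (u + 1) (τ + 2 * u + 3)]
          have a1 := i3 u
          have a2 := i3 (u + 1)
          have b0 := i1 u
          have b1 := i1 (u + 1)
          generalize H u (τ + 2 * u + 3) (τ + 2 * u + 3 + 1) = E0 at *
          generalize H (u + 1) (τ + 2 * u + 3) (τ + 2 * u + 3 + 1) = E1 at *
          generalize H (u + 1 + 1) (τ + 2 * u + 3) (τ + 2 * u + 3 + 1) = E2 at *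
          push_cast at a1 a2 ⊢
          have hτ : (0 : ℤ) ≤ τ := Nat.cast_nonneg τ
          have hu : (0 : ℤ) ≤ u := Nat.cast_nonneg u
          refine le_of_mul_le_mul_left ?_ (show (0 : ℤ) < τ + 2 by positivity)
          have c1 := mul_le_mul_of_nonneg_left a1
            (show (0 : ℤ) ≤ (τ + 1) * (τ + u + 4) by positivity)
          have c2 := mul_le_mul_of_nonneg_left a2
            (show (0 : ℤ) ≤ (τ + 2) * (u + 2) by positivity)
          have c3 := mul_nonneg b1 (show (0 : ℤ) ≤
            2 * (τ + 1) ^ 2 + (u + 1) ^ 2 + 2 * (τ + 1) + (u + 1) by positivity)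
          nlinarith
    · rw [euler_rec]
      rcases t with _ | u
      · simp [H_zero, H_one]
      · have h2 := i4 u (by omega)
        have h3 : (0 : ℤ) < e + 1 - ((u + 1 : ℕ) : ℤ) := by
          have : ((u + 1 : ℕ) : ℤ) < e + 1 := by exact_mod_cast (by omega : u + 1 < e + 1)
          linarith
        exact add_pos_of_nonneg_of_pos (mul_nonneg (by positivity) (i1 _)) (mul_pos h3 h2)

/-- Roots exceed the index. -/
theorem H_pos_of_le (e c : ℕ) : ∀ n, n + c = e → ∀ t, 0 < H (t + 1) e n := by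
  have key : ∀ n, (∀ t, 0 ≤ H t e (n + 1)) → ∀ t, 0 < H (t + 1) e n := by
    intro n h t
    induction t with
    | zero => simp [H_one]
    | succ t ih =>
      have := H_pascal (t + 1) e n
      have := h (t + 1 + 1)
      linarith
  induction c with
  | zero =>
    intro n hn
    obtain rfl : n = e := by omega
    exact key n (euler_inv n).1
  | succ c ih =>
    intro n hn
    refine key n fun t => ?_
    rcases t with _ | t
    · simp [H_zero]
    · exact (ih (n + 1) (by omega) t).le

/-- Far from the centre the differences of an Eulerian row are positive. -/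
theorem H_pos_far {s e : ℕ} (d : ℕ) : ∀ l : ℕ, 1 ≤ l → (l + d + 2) * s ≤ e + 1 →
    ∀ t, t + 1 ≤ s → 0 < H (t + 1) e (e + 1 + d) ∧
      l * H t e (e + 1 + d) ≤ H (t + 1) e (e + 1 + d) := by
  induction d with
  | zero =>
    intro l hl hs t ht
    obtain ⟨i1, _, i3, i4⟩ := euler_inv e
    refine ⟨i4 t (by nlinarith), ?_⟩
    have h1 : ((l + 2) * (t + 1) : ℕ) ≤ e + 1 := le_trans (Nat.mul_le_mul_left _ ht) hs
    have h2 : ((l : ℤ) + 2) * (t + 1) ≤ e + 1 := by exact_mod_cast h1
    refine le_of_mul_le_mul_left ?_ (show (0 : ℤ) < t + 1 by positivity)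
    have h3 := i3 t
    have h4 := i1 t
    simp only [Nat.add_zero]
    nlinarith
  | succ d ih =>
    intro l hl hs t ht
    have h := ih (l + 1) (by omega) (by rw [show l + 1 + d + 2 = l + (d + 1) + 2 by omega]; exact hs)
    have hl' : (1 : ℤ) ≤ l := by exact_mod_cast hl
    rw [← add_assoc, H_pascal]
    obtain ⟨a1, a2⟩ := h t ht
    push_cast at a2
    rcases t with _ | u
    · simp [H_zero, H_one]
    · obtain ⟨b1, b2⟩ := h u (by omega)
      have b0 : 0 ≤ H u e (e + 1 + d) := by
        rcases u with _ | v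
        · simp [H_zero]
        · exact (h v (by omega)).1.le
      rw [H_pascal]
      constructor <;> nlinarith

/-- The symmetry `s ↔ n - s`. -/
theorem H_symm {s b e : ℕ} (he : 1 ≤ e) (hn : e < s + b) (h : H s e (s + b) = 0) :
    H b e (s + b) = 0 := by
  have h0 := congrFun (fwdDiff_iter_pow_eq_zero_of_lt (R := ℤ) hn) (-(s : ℤ))
  rw [fwdDiff_iter_eq_sum_shift, show s + b + 1 = s + (b + 1) by ring, sum_range_add,
    sum_range_succ'] at h0
  have h1 : ∑ j ∈ range s, ((-1 : ℤ) ^ (s + b - j) * (s + b).choose j) • (-(s : ℤ) + j • 1) ^ e =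
      (-1) ^ (s + b + e) * H s e (s + b) := by
    rw [H, mul_sum]
    refine sum_congr rfl fun j hj => ?_
    have hj' := mem_range.mp hj
    obtain ⟨u, rfl⟩ := Nat.exists_eq_add_of_le hj'.le
    rw [show j + u + b - j = u + b by omega, Nat.add_sub_cancel_left]
    have h3 : ((-1 : ℤ) ^ j) * (-1) ^ j = 1 := by rw [← mul_pow]; simp
    simp only [smul_eq_mul, nsmul_eq_mul, mul_one]
    push_cast
    rw [show -((j : ℤ) + u) + j = -1 * u by ring, mul_pow]
    simp only [pow_add]
    linear_combination (-((-1 : ℤ) ^ u * (-1) ^ b * (-1) ^ e * (u : ℤ) ^ e *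
      ((j + u + b).choose j : ℤ))) * h3
  have h2 : ∑ j ∈ range b, ((-1 : ℤ) ^ (s + b - (s + (j + 1))) * (s + b).choose (s + (j + 1))) •
      (-(s : ℤ) + (s + (j + 1)) • 1) ^ e = H b e (s + b) := by
    rw [H, ← sum_range_reflect]
    refine sum_congr rfl fun j hj => ?_
    have hj' := mem_range.mp hj
    obtain ⟨u, rfl⟩ := Nat.exists_eq_add_of_lt hj'
    rw [show j + u + 1 - 1 - j = u by omega, show s + (j + u + 1) - (s + (u + 1)) = j by omega,
      show j + u + 1 - j = u + 1 by omega,
      Nat.choose_symm_of_eq_add (show s + (j + u + 1) = s + (u + 1) + j by omega)]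
    simp only [smul_eq_mul, nsmul_eq_mul, mul_one]
    push_cast
    ring
  rw [h1, h2, h] at h0
  simpa [zero_pow (show e ≠ 0 by omega)] using h0

end Pool.Agent.Lib.MP_b5d28a_nt.H33
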