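import Pool.Agent.Lib.MP_b5d28a_nt.Sign

/-! Expansion of the Moser polynomial through Stirling numbers of the second kind. -/

open Finset

namespace Pool.Agent.Lib.MP_b5d28a_nt.H33

theorem pow_eq_sum_stirling (x N : ℕ) (hx : x ≤ N) (e : ℕ) :
    x ^ e = ∑ i ∈ range (N + 1), e.stirlingSecond i * x.descFactorial i := by
  induction e with
  | zero =>
    rw [sum_range_succ']
    simp
  | succ e ih =>
    have h0 : x.descFactorial (N + 1) = 0 := Nat.descFactorial_eq_zero_iff_lt.mpr (by omega)
    have h1 : ∀ i, x.descFactorial i * x = x.descFactorial (i + 1) + i * x.descFactorial i := by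
      intro i
      rw [Nat.descFactorial_succ]
      rcases le_or_gt i x with h | h
      · obtain ⟨d, rfl⟩ := Nat.exists_eq_add_of_le h
        rw [Nat.add_sub_cancel_left]; ring
      · simp [Nat.descFactorial_eq_zero_iff_lt.mpr h]
    rw [pow_succ, ih, sum_mul]
    have h2 : ∑ i ∈ range (N + 1), e.stirlingSecond i * x.descFactorial i * x =
        ∑ i ∈ range (N + 1), e.stirlingSecond i * x.descFactorial (i + 1) +
          ∑ i ∈ range (N + 1), i * e.stirlingSecond i * x.descFactorial i := by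
      rw [← sum_add_distrib]
      exact sum_congr rfl fun i _ => by rw [mul_assoc, h1]; ring
    rw [h2, sum_range_succ, h0, sum_range_succ' (fun i => i * e.stirlingSecond i * _),
      sum_range_succ' (fun i => (e + 1).stirlingSecond i * _)]
    simp only [mul_zero, add_zero, zero_mul, Nat.stirlingSecond_succ_zero]
    rw [← sum_add_distrib]
    exact sum_congr rfl fun i _ => by rw [Nat.stirlingSecond_succ_succ]; ring

theorem coeff_one_sub_pow (n : ℕ) : ∀ j : ℕ,
    PowerSeries.coeff j ((1 - PowerSeries.X : PowerSeries ℤ) ^ n) = (-1) ^ j * n.choose j := by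
  induction n with
  | zero =>
    intro j
    rcases j with _ | j
    · simp
    · simp [PowerSeries.coeff_one]
  | succ n ih =>
    intro j
    rw [pow_succ, mul_sub, mul_one, map_sub, ih]
    rcases j with _ | j
    · simp
    · rw [PowerSeries.coeff_succ_mul_X, ih, Nat.choose_succ_succ']
      push_cast; ring

theorem conv_choose (i a N : ℕ) :
    ∑ j ∈ range (N + 1), (-1 : ℤ) ^ j * ((a + (i + 1)).choose j) * ((i + (N - j)).choose i) =
      (-1) ^ N * a.choose N := by
  have h := PowerSeries.mk_add_choose_mul_one_sub_pow_eq_one ℤ i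
  have h2 : ((1 - PowerSeries.X : PowerSeries ℤ) ^ (a + (i + 1))) *
      (PowerSeries.mk fun n => ((i + n).choose i : ℤ)) = (1 - PowerSeries.X) ^ a := by
    rw [pow_add, mul_assoc, mul_comm ((1 - PowerSeries.X) ^ (i + 1)), h, mul_one]
  have h3 := congrArg (PowerSeries.coeff N) h2
  rw [PowerSeries.coeff_mul, Finset.Nat.sum_antidiagonal_eq_sum_range_succ_mk,
    coeff_one_sub_pow] at h3
  rw [← h3]
  exact sum_congr rfl fun j _ => by rw [coeff_one_sub_pow, PowerSeries.coeff_mk]

theorem inner_sum {s n i : ℕ} (hi : i ≤ s) (hn : s < n) :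
    ∑ j ∈ range (s + 1), (-1 : ℤ) ^ j * (n.choose j) * ((s - j).choose i) =
      (-1) ^ (s - i) * (n - 1 - i).choose (s - i) := by
  obtain ⟨N, rfl⟩ := Nat.exists_eq_add_of_le hi
  obtain ⟨a, rfl⟩ : ∃ a, n = a + (i + 1) := ⟨n - (i + 1), by omega⟩
  have h1 : a + (i + 1) - 1 - i = a := by omega
  rw [h1, Nat.add_sub_cancel_left, ← conv_choose i a N]
  symm
  have hsub : range (N + 1) ⊆ range (i + N + 1) := range_subset_range.mpr (by omega)
  rw [← sum_subset hsub]
  · refine sum_congr rfl fun j hj => ?_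
    have := mem_range.mp hj
    rw [show i + (N - j) = i + N - j by omega]
  · intro j hj hj'
    have h2 := mem_range.mp hj
    have h3 : ¬ j < N + 1 := fun h => hj' (mem_range.mpr h)
    rw [Nat.choose_eq_zero_of_lt (show i + N - j < i by omega)]
    simp

theorem H_expand {s e n : ℕ} (he : 1 ≤ e) (hn : s < n) :
    H s e n = ∑ i ∈ range (s + 1), (e.stirlingSecond i * i.factorial : ℤ) *
      ((-1) ^ (s - i) * (n - 1 - i).choose (s - i)) := by
  have h0 : H s e n = ∑ j ∈ range (s + 1), (-1 : ℤ) ^ j * (((s - j) ^ e * n.choose j : ℕ) : ℤ) := by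
    rw [sum_range_succ, Nat.sub_self, zero_pow (by omega), H]
    simp
  rw [h0]
  have h1 : ∀ j ∈ range (s + 1), (-1 : ℤ) ^ j * (((s - j) ^ e * n.choose j : ℕ) : ℤ) =
      ∑ i ∈ range (s + 1), (e.stirlingSecond i * i.factorial : ℤ) *
        ((-1 : ℤ) ^ j * (n.choose j) * ((s - j).choose i)) := by
    intro j _
    rw [pow_eq_sum_stirling (s - j) s (Nat.sub_le _ _) e]
    push_cast
    rw [sum_mul, mul_sum]
    refine sum_congr rfl fun i _ => ?_
    rw [Nat.descFactorial_eq_factorial_mul_choose]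
    push_cast; ring
  rw [sum_congr rfl h1, sum_comm]
  refine sum_congr rfl fun i hi => ?_
  rw [← mul_sum, inner_sum (by have := mem_range.mp hi; omega) hn]

/-- The normalised identity. -/
theorem sum_eq_zero_of_H {s e n : ℕ} (he : 1 ≤ e) (hn : s < n) (h : H s e n = 0) :
    ∑ i ∈ range (s + 1), (e.stirlingSecond i * s.choose i : ℚ) *
      ((-1) ^ i * i.factorial / (n - 1).choose i) = 0 := by
  rw [H_expand he hn] at h
  have h' := congrArg (Int.cast : ℤ → ℚ) h
  push_cast at h'
  have hpos : ((n - 1).choose s : ℚ) ≠ 0 := by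
    exact_mod_cast (Nat.choose_pos (by omega)).ne'
  have hs : ((-1 : ℚ) ^ s) ≠ 0 := pow_ne_zero _ (by norm_num)
  refine mul_left_cancel₀ (mul_ne_zero hs hpos) ?_
  rw [mul_zero, mul_sum, ← h']
  refine sum_congr rfl fun i hi => ?_
  have hi' : i ≤ s := by have := mem_range.mp hi; omega
  have h1 := congrArg (Nat.cast : ℕ → ℚ) (Nat.choose_mul (n := n - 1) hi')
  push_cast at h1
  have h2 : ((n - 1).choose i : ℚ) ≠ 0 := by
    exact_mod_cast (Nat.choose_pos (by omega)).ne'
  have h3 : (-1 : ℚ) ^ s * (-1) ^ i = (-1) ^ (s - i) := by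
    obtain ⟨d, rfl⟩ := Nat.exists_eq_add_of_le hi'
    rw [Nat.add_sub_cancel_left, pow_add, mul_right_comm, ← mul_pow]; simp
  rw [← h3]
  field_simp
  linear_combination ((e.stirlingSecond i : ℚ)) * h1

end Pool.Agent.Lib.MP_b5d28a_nt.H33
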