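import Pool.Agent.Lib.MP_b5d28a_nt.H33.Expand

/-! A prime dividing a root but not `s` forces a deep congruence on the root. -/

open Finset

namespace Pool.Agent.Lib.MP_b5d28a_nt.H33

theorem choose_pred_mod {p n : ℕ} (hp : p.Prime) (hn : 1 ≤ n) (hpn : p ∣ n) :
    ∀ i, i < p → (p : ℤ) ∣ (-1) ^ i - ((n - 1).choose i : ℤ) := by
  obtain ⟨a, rfl⟩ : ∃ a, n = a + 1 := ⟨n - 1, by omega⟩
  intro i
  induction i with
  | zero => intro _; simp
  | succ i ih =>
    intro hi
    have h1 := ih (by omega)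
    have h2 : p ∣ (a + 1).choose (i + 1) := by
      have h3 : p ∣ (a + 1).choose (i + 1) * (i + 1) := by
        rw [← Nat.add_one_mul_choose_eq]
        exact Dvd.dvd.mul_right hpn _
      rcases (Nat.Prime.dvd_mul hp).mp h3 with h | h
      · exact h
      · exact absurd (Nat.le_of_dvd (by omega) h) (by omega)
    rw [Nat.choose_succ_succ'] at h2
    have h4 : (p : ℤ) ∣ (a.choose i : ℤ) + a.choose (i + 1) := by exact_mod_cast h2
    simp only [Nat.add_sub_cancel] at h1 ⊢
    have : (-1 : ℤ) ^ (i + 1) - (a.choose (i + 1) : ℤ) =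
        -((-1) ^ i - (a.choose i : ℤ)) - ((a.choose i : ℤ) + a.choose (i + 1)) := by ring
    rw [this]
    exact dvd_sub (dvd_neg.mpr h1) h4

/-- Kummer: many carries force a deep congruence. -/
theorem exists_near {p n i : ℕ} [hp : Fact p.Prime] (hi : i < n) (hpn : p ∣ n)
    (hw : 1 ≤ padicValNat p ((n - 1).choose i)) :
    ∃ j, 1 ≤ j ∧ j ≤ i ∧ p ∣ j ∧
      p ^ (padicValNat p ((n - 1).choose i) + padicValNat p j) ∣ n - j := by
  have hK := padicValNat_choose (p := p) (n := n - 1) (k := i) (b := Nat.log p (n - 1) + 1)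
    (by omega) (Nat.lt_succ_self _)
  set C := {a ∈ Finset.Ico 1 (Nat.log p (n - 1) + 1) |
    p ^ a ≤ i % p ^ a + (n - 1 - i) % p ^ a} with hC
  have hne : C.Nonempty := by rw [← card_pos, ← hK]; exact hw
  have carry : ∀ a ∈ C, 1 ≤ a ∧ (n - 1) % p ^ a < i % p ^ a := by
    intro a ha
    rw [hC, mem_filter, mem_Ico] at ha
    refine ⟨ha.1.1, ?_⟩
    have hq : 0 < p ^ a := pow_pos hp.out.pos a
    have h1 : (n - 1) % p ^ a = (i % p ^ a + (n - 1 - i) % p ^ a) % p ^ a := by
      rw [← Nat.add_mod]; congr 1; omega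
    have h2 := Nat.mod_lt i hq
    have h3 := Nat.mod_lt (n - 1 - i) hq
    rw [h1, Nat.mod_eq_sub_mod ha.2, Nat.mod_eq_of_lt (by omega)]
    omega
  obtain ⟨ha1, ha2⟩ := carry _ (C.max'_mem hne)
  set a := C.max' hne with ha
  have hq : 0 < p ^ a := pow_pos hp.out.pos a
  have hdiv : p ^ a ∣ n - ((n - 1) % p ^ a + 1) := by
    have := Nat.div_add_mod (n - 1) (p ^ a)
    exact ⟨(n - 1) / p ^ a, by omega⟩
  have hle : (n - 1) % p ^ a + 1 ≤ i := le_trans ha2 (Nat.mod_le _ _)
  obtain ⟨j, hj⟩ : ∃ j, j = (n - 1) % p ^ a + 1 := ⟨_, rfl⟩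
  rw [← hj] at hdiv hle
  have hj1 : 1 ≤ j := by rw [hj]; exact Nat.le_add_left _ _
  clear hj ha2
  have hpj : p ∣ j := by
    have h1 : p ∣ n - j := dvd_trans (dvd_pow_self p (by omega)) hdiv
    have h2 : j = n - (n - j) := by omega
    rw [h2]; exact Nat.dvd_sub hpn h1
  refine ⟨j, by omega, hle, hpj, dvd_trans (pow_dvd_pow p ?_) hdiv⟩
  have hsub : C ⊆ Finset.Ioc (padicValNat p j) a := by
    intro c hc
    have hca : c ≤ a := C.le_max' c hc
    rw [mem_Ioc]
    refine ⟨?_, hca⟩
    by_contra hlt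
    have h1 : p ^ c ∣ j := dvd_trans (pow_dvd_pow p (by omega)) pow_padicValNat_dvd
    have h2 : p ^ c ∣ n - j := dvd_trans (pow_dvd_pow p hca) hdiv
    have h3 : p ^ c ∣ n := by
      have : n = (n - j) + j := by omega
      rw [this]; exact dvd_add h2 h1
    have hqc : 0 < p ^ c := pow_pos hp.out.pos c
    obtain ⟨d, hd⟩ := h3
    have h4 := (carry c hc).2
    have h5 := Nat.mod_lt i hqc
    obtain ⟨d', rfl⟩ : ∃ d', d = d' + 1 := ⟨d - 1, by
      rcases d with _ | d
      · simp at hd; omega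
      · simp⟩
    have h6 : n - 1 = (p ^ c - 1) + p ^ c * d' := by rw [hd, mul_add]; omega
    rw [h6, Nat.add_mul_mod_self_left, Nat.mod_eq_of_lt (by omega)] at h4
    omega
  have hcard := card_le_card hsub
  rw [Nat.card_Ioc, ← hK] at hcard
  omega

theorem giuga_nat {s e n p : ℕ} [hp : Fact p.Prime] (he : 1 ≤ e) (hn : s < n) (hpn : p ∣ n)
    (hps : ¬ p ∣ s) (h : H s e n = 0) :
    ∃ j, 1 ≤ j ∧ j < s ∧ p ∣ j ∧ p ^ padicValNat p (j * j.factorial) ∣ n - j := by
  by_contra hno
  have h0 := sum_eq_zero_of_H he hn h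
  have h1 : ((s ^ e : ℕ) : ℚ) =
      ∑ i ∈ range (s + 1), (e.stirlingSecond i * s.choose i : ℚ) * i.factorial := by
    rw [pow_eq_sum_stirling s s le_rfl e]
    push_cast
    refine sum_congr rfl fun i _ => ?_
    rw [Nat.descFactorial_eq_factorial_mul_choose]
    push_cast; ring
  have h2 : ((s ^ e : ℕ) : ℚ) = ∑ i ∈ range (s + 1), ((e.stirlingSecond i * s.choose i : ℕ) : ℚ) *
      (i.factorial - (-1) ^ i * i.factorial / (n - 1).choose i) := by
    rw [h1, ← sub_zero (∑ i ∈ range (s + 1), _), ← h0, ← sum_sub_distrib]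
    exact sum_congr rfl fun i _ => by push_cast; ring
  have h3 : padicNorm p ((s ^ e : ℕ) : ℚ) = 1 :=
    (padicNorm.nat_eq_one_iff _).mpr fun hd => hps (hp.out.dvd_of_dvd_pow hd)
  refine absurd h3 (ne_of_lt ?_)
  rw [h2]
  refine padicNorm.sum_lt' (fun i hi => ?_) one_pos
  have hi' : i ≤ s := by have := mem_range.mp hi; omega
  have hC : 0 < (n - 1).choose i := Nat.choose_pos (by omega)
  have hCq : ((n - 1).choose i : ℚ) ≠ 0 := by exact_mod_cast hC.ne'
  rw [padicNorm.mul]
  refine lt_of_le_of_lt (mul_le_of_le_one_left (padicNorm.nonneg _) (padicNorm.of_nat _)) ?_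
  rcases lt_or_ge i p with hip | hip
  · have h4 := choose_pred_mod hp.out (by omega) hpn i hip
    have h5 : ¬ p ∣ (n - 1).choose i := by
      intro hd
      have h6 : (p : ℤ) ∣ (-1) ^ i := by
        have := dvd_add h4 (Int.natCast_dvd_natCast.mpr hd)
        simpa using this
      have h7 : (p : ℤ) ∣ 1 := by
        have := Dvd.dvd.mul_right h6 ((-1) ^ i)
        rwa [← mul_pow, show ((-1 : ℤ) * -1) = 1 by norm_num, one_pow] at this
      exact hp.out.one_lt.ne' (by exact_mod_cast Int.eq_one_of_dvd_one (by positivity) h7)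
    have h8 : (i.factorial : ℚ) - (-1) ^ i * i.factorial / (n - 1).choose i =
        (((-(i.factorial : ℤ)) * ((-1) ^ i - ((n - 1).choose i : ℤ)) : ℤ) : ℚ) /
          (n - 1).choose i := by
      push_cast; field_simp; ring
    rw [h8, padicNorm.div, (padicNorm.nat_eq_one_iff _).mpr h5, div_one,
      padicNorm.int_lt_one_iff]
    exact Dvd.dvd.mul_left h4 _
  · have hf : p ∣ i.factorial := (Nat.Prime.dvd_factorial hp.out).mpr hip
    have hv : padicValNat p ((n - 1).choose i) < padicValNat p i.factorial := by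
      by_contra hge
      have hv1 : 1 ≤ padicValNat p i.factorial := one_le_padicValNat_of_dvd i.factorial_ne_zero hf
      obtain ⟨j, j1, j2, j3, j4⟩ := exists_near (p := p) (n := n) (i := i) (by omega) hpn (by omega)
      refine hno ⟨j, j1, ?_, j3, dvd_trans (pow_dvd_pow p ?_) j4⟩
      · rcases Nat.lt_or_ge j s with h' | h'
        · exact h'
        · exact absurd (by rwa [show j = s by omega] at j3) hps
      · rw [padicValNat.mul (by omega) j.factorial_ne_zero]
        have : padicValNat p j.factorial ≤ padicValNat p i.factorial :=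
          (padicValNat_dvd_iff_le i.factorial_ne_zero).mp
            (dvd_trans pow_padicValNat_dvd (Nat.factorial_dvd_factorial j2))
        omega
    refine lt_of_le_of_lt padicNorm.sub (max_lt ((padicNorm.nat_lt_one_iff _).mpr hf) ?_)
    have h9 : padicNorm p ((-1 : ℚ) ^ i) = 1 := by
      rcases neg_one_pow_eq_or ℚ i with h' | h' <;> simp [h']
    have hfq : (i.factorial : ℚ) ≠ 0 := by exact_mod_cast i.factorial_ne_zero
    rw [padicNorm.div, padicNorm.mul, h9, one_mul, padicNorm.eq_zpow_of_nonzero hfq,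
      padicNorm.eq_zpow_of_nonzero hCq, padicValRat.of_nat, padicValRat.of_nat]
    have hp1 : (1 : ℚ) < p := by exact_mod_cast hp.out.one_lt
    rw [div_lt_one (zpow_pos (by linarith) _), zpow_lt_zpow_iff_right₀ hp1]
    omega

end Pool.Agent.Lib.MP_b5d28a_nt.H33
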