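import Pool.Agent.Lib.MP_b5d28a_nt.Sign

/-! Location of the roots for a large index, and the classical divisibility. -/

open Finset

namespace Pool.Agent.Lib.MP_b5d28a_nt.H33

theorem dvd_fact {s e n : ℕ} (hs : 1 ≤ s) (hn : 0 < n) (h : H s e n = 0) :
    n ∣ s.factorial * s ^ e := by
  obtain ⟨r, rfl⟩ : ∃ r, s = r + 1 := ⟨s - 1, by omega⟩
  obtain ⟨a, rfl⟩ : ∃ a, n = a + 1 := ⟨n - 1, by omega⟩
  rw [H, sum_range_succ'] at h
  have h1 : ((a + 1 : ℕ) : ℤ) ∣ ((r + 1).factorial : ℤ) * ∑ j ∈ range r,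
      (-1 : ℤ) ^ (j + 1) * (((r + 1 - (j + 1)) ^ e * (a + 1).choose (j + 1) : ℕ) : ℤ) := by
    rw [mul_sum]
    refine dvd_sum fun j hj => ?_
    obtain ⟨c, hc⟩ := Nat.dvd_factorial (show 0 < j + 1 by omega)
      (show j + 1 ≤ r + 1 by have := mem_range.mp hj; omega)
    have h2 := congrArg (Nat.cast : ℕ → ℤ) (Nat.add_one_mul_choose_eq a j)
    generalize r + 1 - (j + 1) = y
    refine ⟨c * (-1) ^ (j + 1) * (y : ℤ) ^ e * a.choose j, ?_⟩
    rw [hc]
    push_cast at h2 ⊢
    linear_combination (-(c : ℤ) * (-1) ^ (j + 1) * (y : ℤ) ^ e) * h2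
  rw [eq_neg_of_add_eq_zero_left h, mul_neg, dvd_neg] at h1
  simp only [pow_zero, one_mul, Nat.sub_zero, Nat.choose_zero_right, mul_one] at h1
  exact_mod_cast h1

theorem peak {m P : ℕ} (b : ℕ → ℤ) (h0 : ∀ j, 0 ≤ b j) (hP : P < m)
    (h1 : ∀ j, j + 1 < P → b j ≤ b (j + 1)) (h2 : ∀ j, P < j → j + 1 < m → b (j + 1) ≤ b j)
    (h : ∑ j ∈ range m, (-1) ^ j * b j = 0) : b P ≤ (if P = 0 then 0 else b (P - 1)) + b (P + 1) := by
  obtain ⟨d, rfl⟩ := Nat.exists_eq_add_of_lt hP
  rw [show P + d + 1 = P + (d + 1) by ring, sum_range_add, sum_range_succ'] at h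
  have a1 := (alt_bounds d (fun j => b (P + (j + 1))) (fun j => h0 _)
    (fun j hj => h2 (P + (j + 1)) (by omega) (by omega))).2
  have a2 := (alt_bounds P (fun j => b (P - 1 - j)) (fun j => h0 _) (fun j hj => by
    have := h1 (P - 1 - (j + 1)) (by omega)
    rwa [show P - 1 - (j + 1) + 1 = P - 1 - j by omega] at this)).2
  have e1 : ∑ j ∈ range d, (-1) ^ (P + (j + 1)) * b (P + (j + 1)) =
      -(-1) ^ P * ∑ j ∈ range d, (-1) ^ j * b (P + (j + 1)) := by
    rw [mul_sum]; exact sum_congr rfl fun j _ => by ring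
  have e2 : ∑ j ∈ range P, (-1) ^ j * b j =
      -(-1) ^ P * ∑ j ∈ range P, (-1) ^ j * b (P - 1 - j) := by
    rw [mul_sum, ← sum_range_reflect]
    refine sum_congr rfl fun j hj => ?_
    obtain ⟨u, rfl⟩ := Nat.exists_eq_add_of_lt (mem_range.mp hj)
    rw [show j + u + 1 - 1 - j = u by omega]
    have h3 : ((-1 : ℤ) ^ j) * (-1) ^ j = 1 := by rw [← mul_pow]; simp
    linear_combination (-(-1) ^ u * b u) * h3
  rw [e1, e2] at h
  have hs : ((-1 : ℤ) ^ P) ≠ 0 := pow_ne_zero _ (by norm_num)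
  have e3 : b P = ∑ j ∈ range P, (-1) ^ j * b (P - 1 - j) +
      ∑ j ∈ range d, (-1) ^ j * b (P + (j + 1)) := by
    refine mul_left_cancel₀ hs ?_
    simp only [add_zero] at h
    linear_combination h
  rw [e3]
  refine add_le_add ?_ (by simpa using a1)
  split_ifs with hP0
  · subst hP0; simp
  · simpa using a2

/-- ratio of consecutive terms -/
noncomputable def rho (s e n p : ℕ) : ℝ :=
  ((p + 1 : ℝ) / p) ^ e * ((s - p : ℕ) : ℝ) / ((n - (s - (p + 1)) : ℕ) : ℝ)

theorem term_succ {s e n p : ℕ} (hp : 1 ≤ p) (hps : p < s) (hn : s ≤ n) :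
    (term s e n (p + 1) : ℝ) = rho s e n p * term s e n p := by
  have h := congrArg (Nat.cast : ℕ → ℝ) (term_ratio e n hps)
  have h1 : (0 : ℝ) < ((n - (s - (p + 1)) : ℕ) : ℝ) := by exact_mod_cast (by omega)
  have h2 : (0 : ℝ) < p := by exact_mod_cast hp
  rw [rho, div_pow]
  push_cast at h
  field_simp
  linear_combination -h

theorem rho_pos {s e n p : ℕ} (hp : 1 ≤ p) (hps : p < s) (hn : s ≤ n) : 0 < rho s e n p := by
  have h1 : (0 : ℝ) < ((n - (s - (p + 1)) : ℕ) : ℝ) := by exact_mod_cast (by omega)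
  have h2 : (0 : ℝ) < p := by exact_mod_cast hp
  have h3 : (0 : ℝ) < ((s - p : ℕ) : ℝ) := by exact_mod_cast (by omega)
  rw [rho]; positivity

theorem rho_drop {s e n p : ℕ} (hp : 1 ≤ p) (hps : p + 1 < s) (hn : s ≤ n) :
    (1 + 1 / (s : ℝ) ^ 2) ^ e * rho s e n (p + 1) ≤ rho s e n p := by
  have h1 : (0 : ℝ) < ((n - (s - (p + 1)) : ℕ) : ℝ) := by exact_mod_cast (by omega)
  have h2 : (1 : ℝ) ≤ p := by exact_mod_cast hp
  have h3 : (p : ℝ) + 2 ≤ s := by exact_mod_cast hps
  rw [rho, rho, mul_div_assoc, mul_div_assoc, ← mul_assoc, ← mul_pow]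
  refine mul_le_mul (pow_le_pow_left₀ (by positivity) ?_ e) ?_ (by positivity) (by positivity)
  · push_cast
    have h4 : 1 / (s : ℝ) ^ 2 ≤ 1 / (p * (p + 2)) :=
      one_div_le_one_div_of_le (by positivity) (by nlinarith)
    refine le_trans (mul_le_mul_of_nonneg_right (add_le_add le_rfl h4) (by positivity)) ?_
    apply le_of_eq
    field_simp
    ring
  · exact div_le_div₀ (by positivity) (by exact_mod_cast (by omega)) h1
      (by exact_mod_cast (by omega))

theorem locate {s e n : ℕ} (hs : 2 ≤ s) (hn : s ≤ n) {η : ℝ} (hη : 0 < η) (hη1 : η ≤ 1 / 2)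
    (hΓ : 1 ≤ η ^ 2 * (1 + 1 / (s : ℝ) ^ 2) ^ e) (h : H s e n = 0) :
    ∃ p, 1 ≤ p ∧ p < s ∧ 1 - η ≤ rho s e n p ∧ (1 - η) * rho s e n p ≤ 1 := by
  by_contra hno
  have hno' : ∀ p, 1 ≤ p → p < s → 1 - η ≤ rho s e n p → 1 < (1 - η) * rho s e n p := by
    intro p h1 h2 h3
    by_contra h4
    exact hno ⟨p, h1, h2, h3, not_lt.mp h4⟩
  have hΓ1 : (1 : ℝ) ≤ (1 + 1 / (s : ℝ) ^ 2) ^ e := one_le_pow₀ (by
    have : (0 : ℝ) ≤ 1 / (s : ℝ) ^ 2 := by positivity
    linarith)
  have hex : ∃ P, P + 1 = s ∨ rho s e n (P + 1) < 1 - η := ⟨s - 1, Or.inl (by omega)⟩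
  classical
  set P := Nat.find hex with hP
  have hPs : P < s := by
    have : P ≤ s - 1 := Nat.find_min' hex (Or.inl (by omega))
    omega
  have hlow : ∀ j, j < P → 1 < (1 - η) * rho s e n (j + 1) := by
    intro j hj
    have := Nat.find_min hex hj
    push Not at this
    exact hno' _ (by omega) (by omega) this.2
  have hhigh : ∀ j, P + j + 1 < s → rho s e n (P + j + 1) < 1 - η := by
    intro j
    induction j with
    | zero => intro hj; exact (Nat.find_spec hex).resolve_left (by omega)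
    | succ j ih =>
      intro hj
      have a1 := rho_drop (e := e) (p := P + j + 1) (by omega) (by omega) hn
      have a2 := rho_pos (e := e) (p := P + j + 1 + 1) (by omega) (by omega) hn
      have a3 := ih (by omega)
      rw [show P + (j + 1) + 1 = P + j + 1 + 1 by ring]
      nlinarith
  have tpos : ∀ j, (0 : ℝ) < term s e n (j + 1) := fun j => by
    exact_mod_cast term_pos (by omega) hn
  rw [H_reflect] at h
  have h' := (mul_eq_zero.mp h).resolve_left (pow_ne_zero _ (by norm_num))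
  set b : ℕ → ℤ := fun j => if j < s then (term s e n (j + 1) : ℤ) else 0 with hb
  have hsum : ∑ j ∈ range s, (-1) ^ j * b j = 0 := by
    rw [← h']; exact sum_congr rfl fun j hj => by simp [hb, mem_range.mp hj]
  have hk := peak b (fun j => by simp only [hb]; split_ifs <;> positivity) hPs
    (fun j hj => by
      simp only [hb, if_pos (show j < s by omega), if_pos (show j + 1 < s by omega)]
      have a1 := term_succ (e := e) (p := j + 1) (by omega) (by omega) hn
      have a2 := hlow j (by omega)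
      have a3 := rho_pos (e := e) (p := j + 1) (by omega) (by omega) hn
      have : (term s e n (j + 1) : ℝ) ≤ term s e n (j + 1 + 1) := by
        rw [a1]; exact le_mul_of_one_le_left (tpos j).le (by nlinarith)
      exact_mod_cast this)
    (fun j hj hj' => by
      simp only [hb, if_pos (show j < s by omega), if_pos hj']
      obtain ⟨u, rfl⟩ := Nat.exists_eq_add_of_le hj.le
      have a1 := term_succ (e := e) (p := P + u + 1) (by omega) (by omega) hn
      have a2 := hhigh u hj'
      have : (term s e n (P + u + 1 + 1) : ℝ) ≤ term s e n (P + u + 1) := by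
        rw [a1]; exact mul_le_of_le_one_left (tpos _).le (by linarith)
      exact_mod_cast this) hsum
  have hk' : ((b P : ℤ) : ℝ) ≤ ((if P = 0 then 0 else b (P - 1) : ℤ) : ℝ) + (b (P + 1) : ℤ) := by
    exact_mod_cast hk
  have t0 := tpos P
  simp only [hb, if_pos hPs] at hk'
  by_cases hP0 : P = 0
  · rw [if_pos hP0, if_pos (show P + 1 < s by omega)] at hk'
    have a1 := term_succ (e := e) (p := P + 1) (by omega) (by omega) hn
    have a2 := hhigh 0 (by omega)
    push_cast at hk'
    rw [a1] at hk'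
    simp only [add_zero] at a2
    nlinarith
  · obtain ⟨Q, hQ⟩ : ∃ Q, P = Q + 1 := ⟨P - 1, by omega⟩
    rw [if_neg hP0, if_pos (show P - 1 < s by omega)] at hk'
    have a1 := term_succ (e := e) (p := Q + 1) (by omega) (by omega) hn
    have a2 := hlow Q (by omega)
    have t1 := tpos Q
    have hh := hhigh 0
    rw [hQ] at hk' t0 hh hPs
    simp only [Nat.add_sub_cancel, add_zero] at hk' hh
    have r1 := rho_pos (e := e) (p := Q + 1) (by omega) (by omega) hn
    by_cases hlast : Q + 1 + 1 < s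
    · rw [if_pos hlast] at hk'
      have a3 := term_succ (e := e) (p := Q + 1 + 1) (by omega) hlast hn
      have a4 := hh hlast
      have a5 := rho_drop (e := e) (p := Q + 1) (by omega) hlast hn
      have r2 := rho_pos (e := e) (p := Q + 1 + 1) (by omega) hlast hn
      push_cast at hk'
      rw [a3, a1] at hk'
      generalize rho s e n (Q + 1) = x at *
      generalize rho s e n (Q + 1 + 1) = y at *
      generalize (term s e n (Q + 1) : ℝ) = t at *
      generalize (1 + 1 / (s : ℝ) ^ 2) ^ e = G at *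
      have c1 : x ≤ 1 + y * x := by
        refine le_of_mul_le_mul_right ?_ t1
        linarith
      have c2 : y ≤ η ^ 2 * x := by nlinarith
      rcases le_or_gt y η with c3 | c3
      · nlinarith
      · have c4 : 1 < η * x := by nlinarith
        nlinarith
    · rw [if_neg hlast] at hk'
      push_cast at hk'
      rw [a1] at hk'
      nlinarith

end Pool.Agent.Lib.MP_b5d28a_nt.H33
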