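import Pool.Agent.Lib.MP_4ffbf9_nt.MB.Main3

/-! A lower bound for a linear form in many logarithms, deduced from the case of two. -/

open Finset

namespace Pool.Agent.Lib.MP_b5d28a_nt.H33

theorem dirichlet {ι : Type} [Fintype ι] (b : ι → ℕ) {N D : ℕ} (hN : 0 < N) (hD : 0 < D) :
    ∃ q : ℕ, 1 ≤ q ∧ q ≤ D ^ Fintype.card ι ∧ ∃ c : ι → ℕ,
      ∀ i, |(q * b i : ℝ) - N * c i| * D ≤ N := by
  classical
  have key : ∀ j j' : ℕ, j < j' → j' ≤ D ^ Fintype.card ι →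
      (∀ i, j * b i % N * D / N = j' * b i % N * D / N) →
      ∃ q : ℕ, 1 ≤ q ∧ q ≤ D ^ Fintype.card ι ∧ ∃ c : ι → ℕ,
        ∀ i, |(q * b i : ℝ) - N * c i| * D ≤ N := by
    intro j j' hj hj' h
    refine ⟨j' - j, by omega, by omega, fun i => j' * b i / N - j * b i / N, fun i => ?_⟩
    have h1 : j * b i / N ≤ j' * b i / N := Nat.div_le_div_right (Nat.mul_le_mul_right _ hj.le)
    have h2 := congrArg (Nat.cast : ℕ → ℝ) (Nat.div_add_mod (j * b i) N)
    have h3 := congrArg (Nat.cast : ℕ → ℝ) (Nat.div_add_mod (j' * b i) N)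
    have h4 := congrArg (Nat.cast : ℕ → ℝ) (Nat.div_add_mod (j * b i % N * D) N)
    have h5 := congrArg (Nat.cast : ℕ → ℝ) (Nat.div_add_mod (j' * b i % N * D) N)
    have h6 : ((j * b i % N * D % N : ℕ) : ℝ) ≤ N := by exact_mod_cast (Nat.mod_lt _ hN).le
    have h7 : ((j' * b i % N * D % N : ℕ) : ℝ) ≤ N := by exact_mod_cast (Nat.mod_lt _ hN).le
    have h8 : (0 : ℝ) ≤ ((j * b i % N * D % N : ℕ) : ℝ) := Nat.cast_nonneg _
    have h9 : (0 : ℝ) ≤ ((j' * b i % N * D % N : ℕ) : ℝ) := Nat.cast_nonneg _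
    rw [h i] at h4
    rw [Nat.cast_sub hj.le, Nat.cast_sub h1, ← abs_of_nonneg (Nat.cast_nonneg (α := ℝ) D),
      ← abs_mul, abs_le]
    rw [Nat.cast_add, Nat.cast_mul, Nat.cast_mul] at h2 h3 h4 h5
    constructor
    · linear_combination h6 + h9 + (D : ℝ) * h3 - (D : ℝ) * h2 + h5 - h4
    · linear_combination h7 + h8 - (D : ℝ) * h3 + (D : ℝ) * h2 - h5 + h4
  obtain ⟨j, hj, j', hj', hne, h⟩ := exists_ne_map_eq_of_card_lt_of_maps_to
    (s := range (D ^ Fintype.card ι + 1)) (t := Fintype.piFinset fun _ : ι => range D)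
    (by simp) (f := fun j i => j * b i % N * D / N) (fun j _ => by
      simp only [mem_coe, Fintype.mem_piFinset, mem_range]
      intro i
      exact Nat.div_lt_of_lt_mul (Nat.mul_lt_mul_of_pos_right (Nat.mod_lt _ hN) hD))
  rw [mem_range] at hj hj'
  rcases lt_or_gt_of_ne hne with hlt | hlt
  · exact key j j' hlt (by omega) (congrFun h)
  · exact key j' j hlt (by omega) (congrFun h.symm)

theorem repr_pow {ι : Type} [Fintype ι] (U V : ι → ℕ) (hU : ∀ i, 0 < U i) (hV : ∀ i, 0 < V i)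
    (z : ι → ℤ) : ∃ u v : ℕ, 0 < u ∧ 0 < v ∧
      Real.log ((u : ℝ) / v) = ∑ i, z i * Real.log ((U i : ℝ) / V i) ∧
      Real.log ((u : ℝ) * v) = ∑ i, |(z i : ℝ)| * Real.log ((U i : ℝ) * V i) := by
  have hU' : ∀ i, (U i : ℝ) ≠ 0 := fun i => by exact_mod_cast (hU i).ne'
  have hV' : ∀ i, (V i : ℝ) ≠ 0 := fun i => by exact_mod_cast (hV i).ne'
  have key : ∀ X Y : ι → ℕ, (∀ i, (X i : ℝ) ≠ 0) → (∀ i, (Y i : ℝ) ≠ 0) →
      Real.log ((∏ i, X i ^ (z i).toNat * Y i ^ (-z i).toNat : ℕ) : ℝ) =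
        ∑ i, ((z i).toNat * Real.log (X i) + (-z i).toNat * Real.log (Y i)) := by
    intro X Y hX hY
    push_cast
    rw [Real.log_prod (fun i _ => mul_ne_zero (pow_ne_zero _ (hX i)) (pow_ne_zero _ (hY i)))]
    exact sum_congr rfl fun i _ => by
      rw [Real.log_mul (pow_ne_zero _ (hX i)) (pow_ne_zero _ (hY i)), Real.log_pow, Real.log_pow]
  have p1 : 0 < ∏ i, U i ^ (z i).toNat * V i ^ (-z i).toNat :=
    prod_pos fun i _ => mul_pos (pow_pos (hU i) _) (pow_pos (hV i) _)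
  have p2 : 0 < ∏ i, V i ^ (z i).toNat * U i ^ (-z i).toNat :=
    prod_pos fun i _ => mul_pos (pow_pos (hV i) _) (pow_pos (hU i) _)
  refine ⟨_, _, p1, p2, ?_, ?_⟩
  · rw [Real.log_div (by exact_mod_cast p1.ne') (by exact_mod_cast p2.ne'), key U V hU' hV',
      key V U hV' hU', ← sum_sub_distrib]
    refine sum_congr rfl fun i _ => ?_
    have h := congrArg (Int.cast : ℤ → ℝ) (Int.toNat_sub_toNat_neg (z i))
    rw [Int.cast_sub, Int.cast_natCast, Int.cast_natCast] at h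
    rw [Real.log_div (hU' i) (hV' i), ← h]; ring
  · rw [Real.log_mul (by exact_mod_cast p1.ne') (by exact_mod_cast p2.ne'), key U V hU' hV',
      key V U hV' hU', ← sum_add_distrib]
    refine sum_congr rfl fun i _ => ?_
    have h : |(z i : ℝ)| = ((z i).toNat : ℝ) + ((-z i).toNat : ℝ) := by
      have := congrArg (Nat.cast : ℕ → ℝ) (Int.toNat_add_toNat_neg_eq_natAbs (z i))
      rw [Nat.cast_add, Nat.cast_natAbs, Int.cast_abs] at this
      exact this.symm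
    rw [Real.log_mul (hU' i) (hV' i), h]; ring

theorem many_logs : ∃ c : ℝ, 0 < c ∧ ∀ (ι : Type) [Fintype ι] (U V b : ι → ℕ) (u0 v0 D R : ℕ)
    (M L h : ℝ), (∀ i, 0 < U i) → (∀ i, 0 < V i) → 0 < u0 → 0 < v0 → 0 ≤ M →
    (∀ i, (b i : ℝ) ≤ M) → ∑ i, Real.log ((U i : ℝ) * V i) ≤ L → 1 ≤ L →
    Real.log ((u0 : ℝ) * v0) ≤ h → 1 ≤ D → 3 ≤ R →
    Real.log ((u0 : ℝ) / v0) + ∑ i, b i * Real.log ((U i : ℝ) / V i) ≠ 0 →
    ∃ r : ℕ, R ≤ r ∧ r ≤ D ^ Fintype.card ι * R ∧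
      Real.exp (-(c * ((h + L * (2 * r / D + M / r + 1)) * (L * (M / r + 1))) * Real.log r ^ 2)) ≤
        |Real.log ((u0 : ℝ) / v0) + ∑ i, b i * Real.log ((U i : ℝ) / V i)| := by
  obtain ⟨c, hc, hB⟩ := MP_4ffbf9_nt.MB.main3 2
  refine ⟨c, hc, fun ι _ U V b u0 v0 D R M L h hU hV hu hv hM hb hL hL1 hh hD hR hΛ => ?_⟩
  have hT : 0 < D ^ Fintype.card ι := pow_pos hD _
  obtain ⟨N, hN⟩ : ∃ N, N = D ^ Fintype.card ι * R := ⟨_, rfl⟩
  have hN0 : 0 < N := by rw [hN]; positivity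
  obtain ⟨q, q1, q2, k, hk⟩ := dirichlet b hN0 hD
  have hr1 : R ≤ N / q := (Nat.le_div_iff_mul_le q1).mpr (by
    rw [hN, mul_comm]; exact Nat.mul_le_mul_right _ q2)
  have hr2 : N / q ≤ N := Nat.div_le_self _ _
  have hdm := congrArg (Nat.cast : ℕ → ℝ) (Nat.div_add_mod N q)
  have hρ : ((N % q : ℕ) : ℝ) ≤ q := by exact_mod_cast (Nat.mod_lt _ q1).le
  have hρ0 : (0 : ℝ) ≤ ((N % q : ℕ) : ℝ) := Nat.cast_nonneg _
  rw [Nat.cast_add, Nat.cast_mul] at hdm
  generalize N / q = r at *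
  generalize ((N % q : ℕ) : ℝ) = ρ at *
  refine ⟨r, hr1, hN ▸ hr2, ?_⟩
  have hr3 : (3 : ℝ) ≤ r := by exact_mod_cast hR.trans hr1
  have hq : (1 : ℝ) ≤ q := by exact_mod_cast q1
  have hD' : (1 : ℝ) ≤ D := by exact_mod_cast hD
  have hN' : (0 : ℝ) < N := by exact_mod_cast hN0
  have hk1 : ∀ i, (k i : ℝ) ≤ M / r + 1 := by
    intro i
    have a1 : |(q * b i : ℝ) - N * k i| ≤ N :=
      le_trans (le_mul_of_one_le_right (abs_nonneg _) hD') (hk i)
    have a2 := (abs_le.mp a1).1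
    have a3 : (q : ℝ) * b i ≤ N * (M / r) := by
      rw [mul_div_assoc', le_div_iff₀ (by linarith)]
      have := mul_le_mul (show (q : ℝ) * r ≤ N by linarith) (hb i) (Nat.cast_nonneg _) hN'.le
      linarith
    refine le_of_mul_le_mul_left ?_ hN'
    linarith
  have hk2 : ∀ i, |(b i : ℝ) - r * k i| ≤ 2 * r / D + M / r + 1 := by
    intro i
    have a1 : |(q * b i : ℝ) - N * k i| ≤ q * (2 * r / D) := by
      rw [mul_div_assoc', le_div_iff₀ (by linarith)]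
      nlinarith [hk i]
    have a2 : (q : ℝ) * (b i - r * k i) = (q * b i - N * k i) + ρ * k i := by
      linear_combination (-(k i : ℝ)) * hdm
    have a3 : ρ * k i ≤ q * (M / r + 1) := mul_le_mul hρ (hk1 i) (Nat.cast_nonneg _) (by linarith)
    have a4 : 0 ≤ ρ * k i := mul_nonneg hρ0 (Nat.cast_nonneg _)
    refine le_of_mul_le_mul_left ?_ (show (0 : ℝ) < q by linarith)
    rw [← abs_of_nonneg (show (0 : ℝ) ≤ q by linarith), ← abs_mul, a2,
      abs_of_nonneg (show (0 : ℝ) ≤ q by linarith)]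
    refine (abs_add_le _ _).trans ?_
    rw [abs_of_nonneg a4]
    linarith
  have hlog : ∀ i, 0 ≤ Real.log ((U i : ℝ) * V i) := fun i => Real.log_nonneg (by
    exact_mod_cast Nat.mul_pos (hU i) (hV i))
  have hsum : ∀ (z : ι → ℤ) (W : ℝ), 0 ≤ W → (∀ i, |(z i : ℝ)| ≤ W) →
      ∑ i, |(z i : ℝ)| * Real.log ((U i : ℝ) * V i) ≤ L * W := by
    intro z W hW hz
    refine le_trans (sum_le_sum fun i _ => mul_le_mul_of_nonneg_right (hz i) (hlog i)) ?_
    rw [← mul_sum, mul_comm]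
    exact mul_le_mul_of_nonneg_right hL hW
  obtain ⟨u1, v1, a1, a2, a3, a4⟩ := repr_pow U V hU hV fun i => (b i : ℤ) - r * k i
  obtain ⟨u2, v2, b1, b2, b3, b4⟩ := repr_pow U V hU hV fun i => (k i : ℤ)
  have hMr : 0 ≤ M / r := by positivity
  have hrD : 0 ≤ 2 * (r : ℝ) / D := by positivity
  have a5 := hsum (fun i => (b i : ℤ) - r * k i) (2 * r / D + M / r + 1) (by positivity)
    (fun i => by push_cast; exact hk2 i)
  have b5 := hsum (fun i => (k i : ℤ)) (M / r + 1) (by positivity)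
    (fun i => by push_cast; rw [Nat.abs_cast]; exact hk1 i)
  rw [← a4] at a5
  rw [← b4] at b5
  have hu' : (0 : ℝ) < u0 := by exact_mod_cast hu
  have hv' : (0 : ℝ) < v0 := by exact_mod_cast hv
  have a1' : (0 : ℝ) < u1 := by exact_mod_cast a1
  have a2' : (0 : ℝ) < v1 := by exact_mod_cast a2
  have h0 : 0 ≤ Real.log ((u0 : ℝ) * v0) := Real.log_nonneg (by exact_mod_cast Nat.mul_pos hu hv)
  have hform : ∑ i : Fin 2, ((![1, (r : ℤ)] i : ℤ) : ℝ) *
      ![Real.log (((u0 * u1 : ℕ) : ℝ) / (v0 * v1 : ℕ)), Real.log ((u2 : ℝ) / v2)] i =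
      Real.log ((u0 : ℝ) / v0) + ∑ i, b i * Real.log ((U i : ℝ) / V i) := by
    simp only [Fin.sum_univ_two, Matrix.cons_val_zero, Matrix.cons_val_one]
    push_cast
    rw [mul_div_mul_comm, Real.log_mul (by positivity) (by positivity), a3, b3, one_mul, mul_sum,
      add_assoc, ← sum_add_distrib]
    congr 1
    exact sum_congr rfl fun i _ => by push_cast; ring
  have key := hB (Fin 2) ![u0 * u1, u2] ![v0 * v1, v2]
    ![Real.log (((u0 * u1 : ℕ) : ℝ) / (v0 * v1 : ℕ)), Real.log ((u2 : ℝ) / v2)]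
    ![h + L * (2 * r / D + M / r + 1), L * (M / r + 1)] (fun _ => 1) ![1, (r : ℤ)] 0 ∅ r
    (by simp) ⟨?_, ?_, ?_, ?_, ?_⟩ (notMem_empty _) hr3 ?_ (by simp) (by rw [hform]; exact hΛ)
  · rw [hform] at key
    simpa [Fin.prod_univ_two] using key
  · intro i; fin_cases i
    · exact Nat.mul_pos hu a1
    · exact b1
  · intro i; fin_cases i
    · exact Nat.mul_pos hv a2
    · exact b2
  · intro i; fin_cases i <;> rfl
  · intro i; fin_cases i
    · show Real.log (((u0 * u1 : ℕ) : ℝ) * (v0 * v1 : ℕ)) ≤ h + L * (2 * r / D + M / r + 1)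
      push_cast
      rw [mul_mul_mul_comm, Real.log_mul (by positivity) (by positivity)]
      linarith
    · exact b5
  · intro i; fin_cases i
    · show 1 ≤ h + L * (2 * r / D + M / r + 1)
      nlinarith
    · show 1 ≤ L * (M / r + 1)
      nlinarith
  · intro i; fin_cases i
    · show |((1 : ℤ) : ℝ)| ≤ r
      simp; linarith
    · show |((r : ℤ) : ℝ)| ≤ r
      simp

end Pool.Agent.Lib.MP_b5d28a_nt.H33
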