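import Pool.Agent.Lib.MP_b5d28a_nt.H33.Carry
import Pool.Agent.Lib.MP_b5d28a_nt.H33.Euler
import Pool.Agent.Shared.PNT.Main

/-! No roots near the index, except the central one. -/

open Finset Filter Topology

namespace Pool.Agent.Lib.MP_b5d28a_nt.H33

theorem exists_prime_between {α β : ℝ} (hα : 0 < α) (hαβ : α < β) :
    ∀ᶠ x : ℝ in atTop, ∃ p : ℕ, p.Prime ∧ α * x < p ∧ (p : ℝ) ≤ β * x := by
  have key : ∀ c : ℝ, 0 < c → Tendsto (fun k : ℝ => Chebyshev.theta (c * k) / k) atTop (𝓝 c) := by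
    intro c hc
    have h := (Pool.Agent.Shared.PNT.pnt_theta.comp (tendsto_id.const_mul_atTop hc)).const_mul c
    rw [mul_one] at h
    refine h.congr' ?_
    filter_upwards [eventually_gt_atTop 0] with k hk
    simp only [Function.comp, id]
    field_simp
  have h := ((key β (hα.trans hαβ)).sub (key α hα)).eventually_const_lt (sub_pos.mpr hαβ)
  filter_upwards [h, eventually_gt_atTop 0] with x hx hx0
  by_contra hno
  rw [← sub_div, lt_div_iff₀ hx0, zero_mul, sub_pos] at hx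
  refine hx.not_ge (sum_le_sum_of_subset_of_nonneg (fun p hp => ?_)
    fun p _ _ => Real.log_natCast_nonneg p)
  simp only [mem_filter, mem_Ioc] at hp ⊢
  refine ⟨⟨hp.1.1, ?_⟩, hp.2⟩
  have h1 : (p : ℝ) ≤ β * x :=
    le_trans (by exact_mod_cast hp.1.2) (Nat.floor_le (mul_pos (hα.trans hαβ) hx0).le)
  by_contra h2
  exact hno ⟨p, hp.2, (Nat.floor_lt (mul_pos hα hx0).le).mp (not_le.mp h2), h1⟩

theorem two_primes (a L : ℕ) (ha : 1 ≤ a) (hL : 1 ≤ L) : ∀ᶠ n : ℕ in atTop, ∃ p q : ℕ,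
    p.Prime ∧ q.Prime ∧ p < q ∧ a * q < n ∧ L * (n - a * p) < n := by
  have ha' : (0 : ℝ) < a := by exact_mod_cast ha
  have hL' : (1 : ℝ) ≤ L := by exact_mod_cast hL
  have hη : (0 : ℝ) < 1 / (4 * L) := by positivity
  have hη' : (1 : ℝ) / (4 * L) ≤ 1 / 4 := one_div_le_one_div_of_le (by norm_num) (by linarith)
  have hηL : (L : ℝ) * (1 / (4 * L)) = 1 / 4 := by field_simp
  set η : ℝ := 1 / (4 * L)
  have h1 := exists_prime_between (α := (1 - 3 * η) / a) (β := (1 - 2 * η) / a)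
    (div_pos (by linarith) ha') (div_lt_div_of_pos_right (by linarith) ha')
  have h2 := exists_prime_between (α := (1 - 2 * η) / a) (β := (1 - η) / a)
    (div_pos (by linarith) ha') (div_lt_div_of_pos_right (by linarith) ha')
  filter_upwards [tendsto_natCast_atTop_atTop.eventually h1,
    tendsto_natCast_atTop_atTop.eventually h2, eventually_gt_atTop 0] with n
    ⟨p, p1, p2, p3⟩ ⟨q, q1, q2, q3⟩ hn
  have hn' : (0 : ℝ) < n := by exact_mod_cast hn
  have hpq : p < q := by exact_mod_cast lt_of_le_of_lt p3 q2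
  rw [div_mul_eq_mul_div, div_lt_iff₀ ha'] at p2
  rw [div_mul_eq_mul_div, le_div_iff₀ ha'] at q3
  have hq : a * q < n := by
    have : (a : ℝ) * q < n := by nlinarith
    exact_mod_cast this
  refine ⟨p, q, p1, q1, hpq, hq, ?_⟩
  have hp : a * p ≤ n := le_trans (Nat.mul_le_mul_left _ hpq.le) hq.le
  have : (L : ℝ) * ((n : ℝ) - a * p) < n := by nlinarith
  exact_mod_cast (by push_cast [Nat.cast_sub hp]; exact this :
    ((L * (n - a * p) : ℕ) : ℝ) < n)

theorem exists_shift {s n : ℕ} (b : ℕ) (h : 2 * s ≤ n) (hn : 0 < n) :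
    ∃ w I ρ : ℕ, w ≤ 1 ∧ (b + w) * s = I * n + ρ ∧ s ≤ 2 * ρ ∧ 2 * ρ + s ≤ 2 * n := by
  have h1 := Nat.div_add_mod (b * s) n
  have h2 := Nat.mod_lt (b * s) hn
  generalize b * s / n = I at *
  generalize hρ : b * s % n = ρ at *
  rcases lt_or_ge (2 * ρ) s with c1 | c1
  · exact ⟨1, I, ρ + s, le_rfl, by rw [add_mul, ← h1]; ring, by omega, by omega⟩
  · rcases le_or_gt (2 * ρ + s) (2 * n) with c2 | c2
    · exact ⟨0, I, ρ, by omega, by rw [add_zero, ← h1]; ring, c1, c2⟩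
    · refine ⟨1, I + 1, ρ + s - n, le_rfl, ?_, by omega, by omega⟩
      rw [add_mul, add_mul, ← h1, mul_comm n I]; omega

theorem window {s e n p a w d I ρ : ℕ} (hp : p.Prime) (hn : n = e + 1 + d) (ha : a = d + 1 + w)
    (hw : w ≤ 1) (h2 : 2 * s < n) (hI : a * s = I * n + ρ) (r1 : s ≤ 2 * ρ)
    (r2 : 2 * ρ + s ≤ 2 * n) (hlt : a * p < n) (hδ : 2 * a * (n - a * p) < s)
    (hbig : 4 * a ^ 2 ≤ n) (hd : ¬ (p : ℤ) ∣ (n : ℤ) - 2 * s) : H s e n ≠ 0 := by
  obtain ⟨c, hc⟩ : ∃ c, n = a * p + (c + 1) := ⟨n - a * p - 1, by omega⟩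
  have hδ' : 2 * a * (c + 1) < s := by rwa [show n - a * p = c + 1 by omega] at hδ
  have ha1 : 1 ≤ a := by omega
  have hIa : I < a := by
    by_contra hge
    have : a * n ≤ I * n := Nat.mul_le_mul_right _ (not_lt.mp hge)
    have : a * s < a * n := Nat.mul_lt_mul_of_pos_left (by omega) ha1
    omega
  have hcp : 3 * (c + 1) < p := by
    refine Nat.lt_of_mul_lt_mul_left (a := a) ?_
    nlinarith
  have k1 : I * p + (c + 1) ≤ s := by
    refine Nat.le_of_mul_le_mul_left ?_ ha1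
    rw [hI, hc]
    nlinarith
  have k2 : s < I * p + p := by
    refine Nat.lt_of_mul_lt_mul_left (a := a) ?_
    have : (I + 1) * (c + 1) ≤ a * (c + 1) := Nat.mul_le_mul_right _ hIa
    rw [hI]
    nlinarith
  have k3 : s % p = s - I * p := by
    rw [show s = (s - I * p) + I * p by omega, Nat.add_mul_mod_self_right,
      Nat.mod_eq_of_lt (by omega)]
    omega
  have k4 : n ≤ 2 * (a * p) := by nlinarith
  have k5 : 2 * a ≤ p := by
    by_contra hlt'
    have : a * p < a * (2 * a) := Nat.mul_lt_mul_of_pos_left (not_le.mp hlt') ha1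
    nlinarith
  refine H_ne_zero_carry (a := a) (w := w) (c := c) hp (by omega) (by nlinarith) hc (by omega)
    (by omega) (by nlinarith) hw ?_ hd
  obtain ⟨p', rfl⟩ : ∃ p', p = p' + 1 := ⟨p - 1, by omega⟩
  rw [Nat.add_sub_cancel]
  rw [mul_add, mul_one] at hc
  omega

theorem near_half (d : ℕ) : ∀ᶠ e : ℕ in atTop, ∀ s, 1 ≤ s → 2 * s < e + 1 + d →
    H s e (e + 1 + d) ≠ 0 := by
  have ht : Tendsto (fun e : ℕ => e + 1 + d) atTop atTop :=
    tendsto_atTop_mono (fun e => by simp only [id]; omega) tendsto_id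
  filter_upwards [ht.eventually (two_primes (d + 1) (4 * (d + 2) * (d + 3)) (by omega)
      (Nat.succ_le_of_lt (by positivity))),
    ht.eventually (two_primes (d + 2) (4 * (d + 2) * (d + 3)) (by omega)
      (Nat.succ_le_of_lt (by positivity))),
    eventually_ge_atTop (16 * (d + 2) ^ 2)] with e h1 h2 he s hs hsn
  rcases le_or_gt ((1 + d + 2) * s) (e + 1) with hfar | hnear
  · obtain ⟨t, rfl⟩ : ∃ t, s = t + 1 := ⟨s - 1, by omega⟩
    exact (H_pos_far d 1 le_rfl hfar t le_rfl).1.ne'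
  obtain ⟨w, I, ρ, hw, hI, r1, r2⟩ := exists_shift (d + 1) hsn.le (by omega)
  have h3 : ∃ p q : ℕ, p.Prime ∧ q.Prime ∧ p < q ∧ (d + 1 + w) * q < e + 1 + d ∧
      4 * (d + 2) * (d + 3) * (e + 1 + d - (d + 1 + w) * p) < e + 1 + d := by
    rcases Nat.le_one_iff_eq_zero_or_eq_one.mp hw with rfl | rfl
    · exact h1
    · exact h2
  obtain ⟨p, q, hp, hq, hpq, q1, p1⟩ := h3
  obtain ⟨n, hn⟩ : ∃ n, n = e + 1 + d := ⟨_, rfl⟩
  obtain ⟨a, ha⟩ : ∃ a, a = d + 1 + w := ⟨_, rfl⟩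
  clear h1 h2 ht
  rw [← hn, ← ha] at hI q1 p1
  rw [← hn] at r2 hsn ⊢
  have hde : d ≤ e := by nlinarith
  have hpa : a * p < a * q := Nat.mul_lt_mul_of_pos_left hpq (by omega)
  have hns : n < 2 * (d + 3) * s := by nlinarith
  have hδ : ∀ x, x ≤ n - a * p → 2 * a * x < s := by
    intro x hx
    have b1 : a * x ≤ (d + 2) * (n - a * p) := Nat.mul_le_mul (by omega) hx
    refine Nat.lt_of_mul_lt_mul_left (a := 2 * (d + 3)) ?_
    nlinarith
  have hbig : 4 * a ^ 2 ≤ n := by nlinarith [show a ≤ d + 2 by omega]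
  by_cases hd : (p : ℤ) ∣ (n : ℤ) - 2 * s
  · by_cases hd' : (q : ℤ) ∣ (n : ℤ) - 2 * s
    · exfalso
      have c1 : p ∣ n - 2 * s := by
        rw [← Int.natCast_dvd_natCast]; push_cast [Nat.cast_sub hsn.le]; exact hd
      have c2 : q ∣ n - 2 * s := by
        rw [← Int.natCast_dvd_natCast]; push_cast [Nat.cast_sub hsn.le]; exact hd'
      have c3 := Nat.le_of_dvd (by omega)
        (Nat.Coprime.mul_dvd_of_dvd_of_dvd ((Nat.coprime_primes hp hq).mpr hpq.ne) c1 c2)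
      have c4 := hδ _ le_rfl
      have c5 : n - a * p ≤ a * (n - a * p) := Nat.le_mul_of_pos_left _ (by omega)
      have c6 : n ≤ 2 * (a * p) := by
        rw [mul_assoc] at c4; omega
      have c7 : 2 * a ≤ p := by
        by_contra hlt'
        have : a * p < a * (2 * a) := Nat.mul_lt_mul_of_pos_left (not_le.mp hlt') (by omega)
        nlinarith
      have c8 : n ≤ p * q := by nlinarith
      omega
    · exact window hq hn ha hw hsn hI r1 r2 q1 (hδ _ (by omega)) hbig hd'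
  · exact window hp hn ha hw hsn hI r1 r2 (by omega) (hδ _ le_rfl) hbig hd

theorem near_all (d : ℕ) : ∀ᶠ e : ℕ in atTop, ∀ s n, 1 ≤ s → s < n → n ≤ e + 1 + d → n ≠ 2 * s →
    H s e n = 0 → False := by
  have h : ∀ᶠ e : ℕ in atTop, ∀ d' ∈ range (d + 1), ∀ s, 1 ≤ s → 2 * s < e + 1 + d' →
      H s e (e + 1 + d') ≠ 0 := (eventually_all_finset _).mpr fun d' _ => near_half d'
  filter_upwards [h, eventually_ge_atTop 1] with e he he1 s n hs hsn hn hne h0
  rcases le_or_gt n e with hle | hgt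
  · obtain ⟨t, rfl⟩ : ∃ t, s = t + 1 := ⟨s - 1, by omega⟩
    exact (H_pos_of_le e (e - n) n (by omega) t).ne' h0
  obtain ⟨d', rfl⟩ : ∃ d', n = e + 1 + d' := ⟨n - (e + 1), by omega⟩
  have h1 := he d' (mem_range.mpr (by omega))
  rcases lt_or_gt_of_ne hne with hlt | hlt
  · obtain ⟨b, hb⟩ : ∃ b, e + 1 + d' = s + b := ⟨e + 1 + d' - s, by omega⟩
    refine h1 b (by omega) (by omega) ?_
    rw [hb] at h0 ⊢
    exact H_symm he1 (by omega) h0
  · exact h1 s hs hlt h0

end Pool.Agent.Lib.MP_b5d28a_nt.H33
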