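import Pool.Agent.Lib.MP_b5d28a_nt.H33.Giuga

/-!
If `n` is a nontrivial integer root of the Moser polynomial `F_{s,k}` and the prime `q` divides
`n` but not `s`, then `n ≡ j` modulo `q ^ v_q(j * j!)` for a multiple `j` of `q` with `0 < j < s`.
-/

namespace Pool.Agent.Lib.MP_b5d28a_nt.H33.PrimeCongruence

open Pool.Agent.Lib.MP_b5d28a_nt

theorem result (s k : ℕ) (hs : 1 ≤ s) (hk : 2 ≤ k) (n : ℤ) (hn : n < 1 ∨ (s : ℤ) < n)
    (hroot : ∑ p ∈ Finset.Icc 1 s, (-1 : ℚ) ^ (p - 1) * (p : ℚ) ^ (k - 1) *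
      ((∏ i ∈ Finset.range (s - p), ((n : ℚ) - i)) / ((s - p).factorial : ℚ)) = 0)
    (q : ℕ) (hq : q.Prime) (hqn : (q : ℤ) ∣ n) (hqs : ¬ q ∣ s) :
    ∃ j : ℕ, 1 ≤ j ∧ j < s ∧ q ∣ j ∧
      (q : ℤ) ^ padicValNat q (j * j.factorial) ∣ n - j := by
  have h0 : moser s k n = 0 := hroot
  rcases hn with hn | hn
  · exact absurd h0 (moser_ne_zero_of_nonpos hs k (by exact_mod_cast (by omega : n ≤ 0)))
  · obtain ⟨m, rfl⟩ : ∃ m : ℕ, n = m := ⟨n.toNat, by omega⟩
    have := Fact.mk hq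
    have h1 : moser s k (m : ℚ) = 0 := by exact_mod_cast h0
    rw [moser_nat] at h1
    have h2 : H s (k - 1) m = 0 := by
      have := (mul_eq_zero.mp h1).resolve_left (pow_ne_zero _ (by norm_num))
      exact_mod_cast this
    have hsm : s < m := by exact_mod_cast hn
    obtain ⟨j, j1, j2, j3, j4⟩ := H33.giuga_nat (p := q) (by omega) hsm
      (by exact_mod_cast hqn) hqs h2
    refine ⟨j, j1, j2, j3, ?_⟩
    have := Int.natCast_dvd_natCast.mpr j4
    push_cast [Nat.cast_sub (show j ≤ m by omega)] at this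
    exact this

end Pool.Agent.Lib.MP_b5d28a_nt.H33.PrimeCongruence
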