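import Pool.Agent.Lib.MP_b5d28a_nt.H33.ManyLogs
import Pool.Agent.Lib.MP_b5d28a_nt.H33.Locate
import Pool.Agent.Lib.MP_b5d28a_nt.H33.Euler

/-! A bound for the index that holds for every `s`. -/

open Finset

namespace Pool.Agent.Lib.MP_b5d28a_nt.H33

theorem split_primes {n : ℕ} (hn : n ≠ 0) (P : Finset ℕ) (hP : ∀ q ∈ P, q.Prime) :
    ∃ (a : ℕ → ℕ) (v : ℕ), n = v * ∏ q ∈ P, q ^ a q ∧ ∀ q ∈ P, ¬ q ∣ v := by
  induction P using Finset.induction_on with
  | empty => exact ⟨fun _ => 0, n, by simp, by simp⟩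
  | insert q P hq ih =>
    obtain ⟨a, v, h1, h2⟩ := ih fun x hx => hP x (mem_insert_of_mem hx)
    have hv : v ≠ 0 := by rintro rfl; simp at h1; exact hn h1
    obtain ⟨b, v', h3, h4⟩ := Nat.exists_eq_pow_mul_and_not_dvd hv q
      (hP q (mem_insert_self _ _)).ne_one
    refine ⟨Function.update a q b, v', ?_, fun x hx => ?_⟩
    · have h5 : ∏ x ∈ P, x ^ Function.update a q b x = ∏ x ∈ P, x ^ a x :=
        prod_congr rfl fun x hx => by rw [Function.update_of_ne (ne_of_mem_of_not_mem hx hq)]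
      rw [prod_insert hq, Function.update_self, h5, h1, h4]
      ring
    · rcases mem_insert.mp hx with rfl | hx
      · exact h3
      · exact fun hd => h2 x hx (h4 ▸ Dvd.dvd.mul_left hd _)

theorem exp_half_le {x : ℝ} (h0 : 0 ≤ x) (h1 : x ≤ 1) : Real.exp (x / 2) ≤ 1 + x := by
  have h := Real.exp_bound_div_one_sub_of_interval (x := x / 2) (by linarith) (by linarith)
  refine h.trans ?_
  rw [div_le_iff₀ (by linarith)]
  nlinarith

theorem upper {s e n : ℕ} (hs : 4 ≤ s) (he : 8 * s ^ 2 ≤ e) (hn : e < n) (h : H s e n = 0) :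
    ∃ p, 1 ≤ p ∧ p < s ∧ |Real.log (((p + 1 : ℝ) / p) ^ e * ((s - p : ℕ) : ℝ) / n)| ≤
      3 * Real.exp (-(e / (4 * (s : ℝ) ^ 2))) := by
  have hS : (4 : ℝ) ≤ s := by exact_mod_cast hs
  have hE : 8 * (s : ℝ) ^ 2 ≤ e := by exact_mod_cast he
  have hsn : 2 * s ≤ n := by nlinarith
  set η := Real.exp (-(e / (4 * (s : ℝ) ^ 2))) with hη
  have hη0 : 0 < η := Real.exp_pos _
  have hη3 : η ≤ 1 / 3 := by
    have h1 : (2 : ℝ) ≤ e / (4 * (s : ℝ) ^ 2) := by
      rw [le_div_iff₀ (by positivity)]; nlinarith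
    have h2 := Real.add_one_le_exp (e / (4 * (s : ℝ) ^ 2))
    rw [hη, Real.exp_neg, ← one_div]
    exact one_div_le_one_div_of_le (by norm_num) (by linarith)
  have hη1 : η ≤ 1 / 2 := by linarith
  have hΓ : 1 ≤ η ^ 2 * (1 + 1 / (s : ℝ) ^ 2) ^ e := by
    have h1 := exp_half_le (x := 1 / (s : ℝ) ^ 2) (by positivity)
      (by rw [div_le_one (by positivity)]; nlinarith)
    have h2 := pow_le_pow_left₀ (Real.exp_pos _).le h1 e
    refine le_trans (le_of_eq ?_) (mul_le_mul_of_nonneg_left h2 (by positivity))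
    rw [hη, ← Real.exp_nat_mul, ← Real.exp_nat_mul, ← Real.exp_add, eq_comm, Real.exp_eq_one_iff]
    push_cast
    field_simp
    ring
  obtain ⟨p, p1, p2, p3, p4⟩ := locate (by omega) (by omega) hη0 hη1 hΓ h
  refine ⟨p, p1, p2, ?_⟩
  have hρ := rho_pos (e := e) p1 p2 (show s ≤ n by omega)
  have hn' : (0 : ℝ) < ((n - (s - (p + 1)) : ℕ) : ℝ) := by exact_mod_cast (by omega)
  have hN : (0 : ℝ) < n := by exact_mod_cast (by omega)
  have e1 : ((p + 1 : ℝ) / p) ^ e * ((s - p : ℕ) : ℝ) / n =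
      rho s e n p * (((n - (s - (p + 1)) : ℕ) : ℝ) / n) := by
    rw [rho]; field_simp
  have hlow : Real.exp (e / (2 * s)) ≤ n := by
    have h1 : s ^ e ≤ n * (s - 1) ^ e := not_lt.mp fun hlt => H_ne_zero_small (by omega) hlt h
    have h2 : (s : ℝ) ^ e ≤ n * ((s : ℝ) - 1) ^ e := by
      have := (Nat.cast_le (α := ℝ)).mpr h1
      push_cast [Nat.cast_sub (show 1 ≤ s by omega)] at this
      exact this
    have h3 := exp_half_le (x := 1 / (s : ℝ)) (by positivity)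
      (by rw [div_le_one (by positivity)]; linarith)
    have h4 : Real.exp (1 / (s : ℝ) / 2) * (s - 1) ≤ s := by
      refine (mul_le_mul_of_nonneg_right h3 (by linarith)).trans ?_
      have : (1 + 1 / (s : ℝ)) * (s - 1) = s - 1 / s := by field_simp; ring
      rw [this]
      have : (0 : ℝ) ≤ 1 / s := by positivity
      linarith
    have h5 := pow_le_pow_left₀ (mul_nonneg (Real.exp_pos _).le (by linarith)) h4 e
    rw [mul_pow, ← Real.exp_nat_mul] at h5
    refine le_of_mul_le_mul_right ?_ (pow_pos (show (0 : ℝ) < s - 1 by linarith) e)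
    rw [show (e : ℝ) / (2 * s) = e * (1 / s / 2) by ring]
    exact h5.trans h2
  have hsmall : 2 * s ≤ η * n := by
    refine le_trans ?_ (mul_le_mul_of_nonneg_left hlow hη0.le)
    rw [hη, ← Real.exp_add]
    refine le_trans ?_ (Real.add_one_le_exp _)
    have : -((e : ℝ) / (4 * (s : ℝ) ^ 2)) + e / (2 * s) = e * (2 * s - 1) / (4 * s ^ 2) := by
      field_simp; ring
    rw [this]
    have : 2 * (s : ℝ) ≤ e * (2 * s - 1) / (4 * s ^ 2) := by
      rw [le_div_iff₀ (by positivity)]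
      have := mul_le_mul_of_nonneg_right hE (show (0 : ℝ) ≤ 2 * s - 1 by linarith)
      nlinarith
    linarith
  have c1 : (n : ℝ) - s ≤ ((n - (s - (p + 1)) : ℕ) : ℝ) := by
    have : n ≤ n - (s - (p + 1)) + s := by omega
    have := (Nat.cast_le (α := ℝ)).mpr this
    push_cast at this
    linarith
  have c2 : ((n - (s - (p + 1)) : ℕ) : ℝ) ≤ n := by exact_mod_cast Nat.sub_le _ _
  rw [e1]
  generalize rho s e n p = ρ at *
  generalize ((n - (s - (p + 1)) : ℕ) : ℝ) = n' at *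
  have d1 : 1 - η / 2 ≤ n' / n := by rw [le_div_iff₀ hN]; linarith
  have d2 : n' / n ≤ 1 := (div_le_one hN).mpr c2
  generalize n' / n = t at *
  have t0 : 0 < t := by linarith
  rw [abs_le]
  constructor
  · have h1 := Real.one_sub_inv_le_log_of_pos (mul_pos hρ t0)
    have h2 : (1 - η) * (1 - η / 2) ≤ ρ * t := mul_le_mul p3 d1 (by linarith) hρ.le
    have h3 : (ρ * t)⁻¹ ≤ 1 + 3 * η := by
      rw [inv_le_iff_one_le_mul₀ (mul_pos hρ t0)]
      have := mul_le_mul_of_nonneg_left h2 (show 0 ≤ 1 + 3 * η by linarith)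
      nlinarith [mul_nonneg hη0.le (show 0 ≤ 1 / 3 - η by linarith), mul_pos hη0 hη0,
        mul_pos (mul_pos hη0 hη0) hη0]
    linarith
  · have h1 := Real.log_le_sub_one_of_pos (mul_pos hρ t0)
    have h2 : ρ ≤ 1 + 2 * η := by nlinarith
    nlinarith

theorem numeric {c S E Z D r W y : ℝ} (hc : 0 < c) (hS : 4 ≤ S) (hy : 360000 * c * S ^ 6 ≤ y)
    (hy1 : 1 ≤ y) (hD : D = y ^ 3) (hW : W ≤ 10 * S) (hZ1 : E ≤ Z ^ 2) (hZ2 : Z ^ 2 ≤ 4 * E)
    (hZD : D ≤ Z) (hSZ : S ≤ Z) (hr1 : Z * D ≤ r) (hr2 : r ≤ E) (hl0 : 0 ≤ Real.log r)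
    (hl : Real.log r ≤ W * y) :
    c * ((2 * S ^ 2 + 3 * S * (2 * r / D + 2 * E / r + 1)) * (3 * S * (2 * E / r + 1))) *
      Real.log r ^ 2 ≤ E / (8 * S ^ 2) := by
  have hD1 : 1 ≤ D := hD ▸ one_le_pow₀ hy1
  have hZ0 : 0 < Z := by linarith
  have hr0 : 0 < r := lt_of_lt_of_le (by positivity) hr1
  have hE0 : 0 < E := by linarith
  obtain ⟨u, hu⟩ : ∃ u, u = Z / D := ⟨_, rfl⟩
  obtain ⟨g, hg⟩ : ∃ g, g = E / D := ⟨_, rfl⟩
  have hu1 : 1 ≤ u := by rw [hu, le_div_iff₀ (by linarith)]; linarith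
  have hx : 2 * E / r ≤ 2 * u := by
    rw [hu, div_le_iff₀ hr0]
    have : 2 * (Z / D) * (Z * D) = 2 * Z ^ 2 := by field_simp
    have := mul_le_mul_of_nonneg_left hr1 (show 0 ≤ 2 * (Z / D) by positivity)
    linarith
  have hx0 : 0 ≤ 2 * E / r := by positivity
  have h1 : S * u ≤ 4 * g := by
    rw [hu, hg, ← mul_div_assoc, ← mul_div_assoc]
    exact div_le_div_of_nonneg_right (by nlinarith) (by linarith)
  have h2 : u ^ 2 ≤ 4 * g := by
    rw [hu, hg, div_pow, ← mul_div_assoc, div_le_div_iff₀ (by positivity) (by linarith)]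
    have := mul_le_mul hZ2 (show D ≤ D ^ 2 by nlinarith) (by linarith) (by linarith)
    linarith
  have h3 : 2 * r / D * (2 * E / r + 1) ≤ 6 * g := by
    have : 2 * r / D * (2 * E / r + 1) = (4 * E + 2 * r) / D := by field_simp; ring
    rw [this, hg, ← mul_div_assoc]
    exact div_le_div_of_nonneg_right (by linarith) (by linarith)
  have h4 : (2 * S ^ 2 + 3 * S * (2 * r / D + 2 * E / r + 1)) * (3 * S * (2 * E / r + 1)) ≤
      450 * S ^ 2 * g := by
    generalize 2 * E / r = x at *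
    generalize 2 * r / D = z at *
    have a1 : x + 1 ≤ 3 * u := by linarith
    have a2 : (x + 1) ^ 2 ≤ 36 * g := by nlinarith
    have a3 : S * (x + 1) ≤ 12 * g := by nlinarith
    have a4 : (0 : ℝ) ≤ S ^ 2 := by positivity
    have b1 := mul_le_mul_of_nonneg_left a2 a4
    have b2 := mul_le_mul_of_nonneg_left a3 a4
    have b3 := mul_le_mul_of_nonneg_left h3 a4
    nlinarith
  have h5 : Real.log r ^ 2 ≤ (10 * S * y) ^ 2 :=
    pow_le_pow_left₀ hl0 (hl.trans (mul_le_mul_of_nonneg_right hW (by linarith))) 2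
  have hg0 : 0 ≤ g := by rw [hg]; positivity
  refine le_trans (mul_le_mul (mul_le_mul_of_nonneg_left h4 hc.le) h5 (by positivity)
    (by positivity)) ?_
  rw [hg, hD, le_div_iff₀ (by positivity)]
  have : c * (450 * S ^ 2 * (E / y ^ 3)) * (10 * S * y) ^ 2 * (8 * S ^ 2) =
      E * ((360000 * c * S ^ 6) / y) := by field_simp; ring
  rw [this]
  exact mul_le_of_le_one_right hE0.le ((div_le_one (by linarith)).mpr hy)

theorem lam_ne {s e n p : ℕ} (hs : 4 ≤ s) (he : 256 * s ^ 2 ≤ e) (hn : 0 < n) (p1 : 1 ≤ p)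
    (p2 : p < s) (h : H s e n = 0) :
    Real.log (((p + 1 : ℝ) / p) ^ e * ((s - p : ℕ) : ℝ) / n) ≠ 0 := by
  have hp0 : (0 : ℝ) < p := by exact_mod_cast p1
  have hsp : (0 : ℝ) < ((s - p : ℕ) : ℝ) := by exact_mod_cast (by omega)
  have hN : (0 : ℝ) < n := by exact_mod_cast hn
  have hss : s ≤ s ^ 2 := Nat.le_self_pow (by norm_num) s
  intro h0
  have h1 := Real.eq_one_of_pos_of_log_eq_zero (by positivity) h0
  rw [div_eq_one_iff_eq hN.ne', div_pow, div_mul_eq_mul_div, div_eq_iff (by positivity)] at h1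
  have h2 : (p + 1) ^ e * (s - p) = n * p ^ e := by exact_mod_cast h1
  rcases Nat.eq_or_lt_of_le p1 with rfl | hp2
  · refine H_ne_zero_two hs (by omega) ?_ (by omega) ⟨s - 1, by simpa using h2.symm⟩ h
    have h3 := one_add_mul_le_pow (show (-2 : ℝ) ≤ 1 / 3 by norm_num) e
    have h4 : (256 : ℝ) * s ^ 2 ≤ e := by exact_mod_cast he
    have h5 : (4 : ℝ) * s ^ 2 * 3 ^ e ≤ 4 ^ e := by
      rw [show (4 : ℝ) ^ e = (1 + 1 / 3) ^ e * 3 ^ e by rw [← mul_pow]; norm_num]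
      have : (0 : ℝ) ≤ (s : ℝ) ^ 2 := by positivity
      exact mul_le_mul_of_nonneg_right (by linarith) (by positivity)
    exact_mod_cast h5
  · have h3 : p ^ e ∣ s - p := (Nat.Coprime.pow e e (by simp)).dvd_of_dvd_mul_left
      (Dvd.intro_left _ h2.symm)
    have h4 := Nat.le_of_dvd (by omega) h3
    have h5 : e < p ^ e := Nat.lt_pow_self hp2
    omega

theorem shape {s e n : ℕ} (hs : 4 ≤ s) (he : s ≤ e) (hn : 0 < n) (h : H s e n = 0) :
    ∃ (a : ℕ → ℕ) (v : ℕ), n = v * ∏ q ∈ s.primeFactors, q ^ a q ∧ 0 < v ∧ v ≤ s ^ s ∧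
      ∀ q ∈ s.primeFactors, a q ≤ 2 * e := by
  have hbig : n < s * 2 ^ e := not_le.mp fun hle => H_ne_zero_big (by omega) (by omega) hle h
  obtain ⟨a, v, hv1, hv2⟩ := split_primes (n := n) (by omega) s.primeFactors
    fun q hq => Nat.prime_of_mem_primeFactors hq
  have hv0 : 0 < v := Nat.pos_of_ne_zero (by rintro rfl; simp at hv1; omega)
  refine ⟨a, v, hv1, hv0, ?_, fun q hq => ?_⟩
  · have h1 : Nat.Coprime v s := Nat.coprime_of_dvd fun q hq hqv hqs =>
      hv2 q (Nat.mem_primeFactors.mpr ⟨hq, hqs, by omega⟩) hqv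
    have h2 : v ∣ s.factorial * s ^ e :=
      dvd_trans (Dvd.intro _ hv1.symm) (dvd_fact (by omega) (by omega) h)
    exact le_trans (Nat.le_of_dvd s.factorial_pos
      ((h1.pow_right e).dvd_of_dvd_mul_right h2)) (Nat.factorial_le_pow s)
  · have h1 : q ^ a q ≤ n := Nat.le_of_dvd (by omega)
      (hv1 ▸ Dvd.dvd.mul_left (dvd_prod_of_mem (fun q => q ^ a q) hq) _)
    have h2 : 2 ^ a q ≤ q ^ a q :=
      Nat.pow_le_pow_left (Nat.prime_of_mem_primeFactors hq).two_le _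
    have h3 : s < 2 ^ e := lt_of_lt_of_le Nat.lt_two_pow_self
      (Nat.pow_le_pow_right (by norm_num) (by omega))
    have h4 : 2 ^ a q < 2 ^ (2 * e) := by
      rw [two_mul, pow_add]
      have := Nat.mul_le_mul_right (2 ^ e) h3.le
      omega
    exact ((Nat.pow_lt_pow_iff_right (by norm_num)).mp h4).le

theorem lower : ∃ c : ℝ, 0 < c ∧ ∀ s e n p D R : ℕ, 4 ≤ s → 256 * s ^ 2 ≤ e → 0 < n → 1 ≤ p →
    p < s → H s e n = 0 → 1 ≤ D → 3 ≤ R → ∃ r : ℕ, R ≤ r ∧ r ≤ D ^ (s.primeFactors.card + 1) * R ∧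
      Real.exp (-(c * ((2 * (s : ℝ) ^ 2 + 3 * s * (2 * r / D + 2 * e / r + 1)) *
        (3 * s * (2 * e / r + 1))) * Real.log r ^ 2)) ≤
      |Real.log (((p + 1 : ℝ) / p) ^ e * ((s - p : ℕ) : ℝ) / n)| := by
  obtain ⟨c, hc, hB⟩ := many_logs
  refine ⟨c, hc, fun s e n p D R hs he hn p1 p2 h hD hR => ?_⟩
  have hss : s ≤ s ^ 2 := Nat.le_self_pow (by norm_num) s
  have hΛ := lam_ne hs he hn p1 p2 h
  obtain ⟨a, v, hv1, hv0, hvs, ha⟩ := shape hs (by omega) hn h
  have hS : (4 : ℝ) ≤ s := by exact_mod_cast hs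
  have hp0 : (0 : ℝ) < p := by exact_mod_cast p1
  have hsp : (0 : ℝ) < ((s - p : ℕ) : ℝ) := by exact_mod_cast (by omega)
  have hv0' : (0 : ℝ) < v := by exact_mod_cast hv0
  have hN : (0 : ℝ) < n := by exact_mod_cast hn
  have hq0 : ∀ q ∈ s.primeFactors, (0 : ℝ) < q := fun q hq => by
    exact_mod_cast (Nat.prime_of_mem_primeFactors hq).pos
  have hlogS : Real.log s ≤ s := (Real.log_le_sub_one_of_pos (by linarith)).trans (by linarith)
  have hh : Real.log (((s - p : ℕ) : ℝ) * v) ≤ 2 * (s : ℝ) ^ 2 := by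
    have h1 : ((s - p : ℕ) : ℝ) * v ≤ (s : ℝ) ^ (2 * s) := by
      have : (s - p) * v ≤ s ^ (2 * s) := by
        rw [two_mul, pow_add]
        exact Nat.mul_le_mul ((Nat.sub_le _ _).trans (Nat.le_self_pow (by omega) s)) hvs
      exact_mod_cast this
    have h2 := Real.log_le_log (by positivity) h1
    rw [Real.log_pow] at h2
    push_cast at h2
    have := mul_le_mul_of_nonneg_left hlogS (show (0 : ℝ) ≤ 2 * s by positivity)
    linarith
  have hL1 : Real.log (((p + 1 : ℕ) : ℝ) * p) ≤ 2 * s := by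
    have h3 : ((p + 1 : ℕ) : ℝ) * p ≤ (s : ℝ) ^ 2 := by
      have : (p + 1) * p ≤ s ^ 2 := by rw [sq]; exact Nat.mul_le_mul p2 p2.le
      exact_mod_cast this
    have h4 := Real.log_le_log (by positivity) h3
    rw [Real.log_pow] at h4
    push_cast at h4 ⊢
    linarith
  have hL2 : ∑ q ∈ s.primeFactors, Real.log (q : ℝ) ≤ s := by
    rw [← Real.log_prod fun q hq => (hq0 q hq).ne']
    have h1 : (∏ q ∈ s.primeFactors, (q : ℝ)) ≤ s := by
      rw [← Nat.cast_prod]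
      exact Nat.cast_le.mpr (Nat.le_of_dvd (by omega) (Nat.prod_primeFactors_dvd s))
    exact (Real.log_le_log (prod_pos hq0) h1).trans hlogS
  have h1 : Real.log n = Real.log v + ∑ q ∈ s.primeFactors, a q * Real.log q := by
    rw [hv1]
    push_cast
    rw [Real.log_mul hv0'.ne' (prod_pos fun q hq => pow_pos (hq0 q hq) _).ne',
      Real.log_prod fun q hq => (pow_pos (hq0 q hq) _).ne']
    simp only [Real.log_pow]
  let U : Option s.primeFactors → ℕ := fun o => o.elim (p + 1) fun _ => 1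
  let V : Option s.primeFactors → ℕ := fun o => o.elim p fun q => q
  let b : Option s.primeFactors → ℕ := fun o => o.elim e fun q => a q
  have hform : Real.log (((s - p : ℕ) : ℝ) / v) + ∑ i, b i * Real.log ((U i : ℝ) / V i) =
      Real.log (((p + 1 : ℝ) / p) ^ e * ((s - p : ℕ) : ℝ) / n) := by
    rw [Fintype.sum_option]
    simp only [U, V, b, Option.elim]
    rw [sum_coe_sort s.primeFactors (fun q : ℕ => (a q : ℝ) * Real.log (((1 : ℕ) : ℝ) / (q : ℝ))),
      Real.log_div (by positivity) hN.ne', Real.log_mul (by positivity) hsp.ne', Real.log_pow,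
      Real.log_div hsp.ne' hv0'.ne', h1]
    simp only [Nat.cast_one, one_div, Real.log_inv, mul_neg, sum_neg_distrib]
    push_cast
    ring
  have hL : ∑ i, Real.log ((U i : ℝ) * V i) ≤ 3 * s := by
    rw [Fintype.sum_option]
    simp only [U, V, Option.elim]
    rw [sum_coe_sort s.primeFactors (fun q : ℕ => Real.log (((1 : ℕ) : ℝ) * (q : ℝ)))]
    simp only [Nat.cast_one, one_mul]
    linarith
  have hcard : Fintype.card (Option s.primeFactors) = s.primeFactors.card + 1 := by simp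
  have key := hB (Option s.primeFactors) U V b (s - p) v D R
    (2 * e) (3 * s) (2 * (s : ℝ) ^ 2) (fun o => by cases o <;> simp [U])
    (fun o => by
      rcases o with _ | q
      · exact p1
      · exact (Nat.prime_of_mem_primeFactors q.2).pos) (by omega) hv0 (by positivity)
    (fun o => by
      rcases o with _ | q
      · show ((e : ℕ) : ℝ) ≤ 2 * e
        have : (0 : ℝ) ≤ e := Nat.cast_nonneg e
        linarith
      · show ((a q : ℕ) : ℝ) ≤ 2 * e
        exact_mod_cast ha q q.2) hL (by linarith) hh hD hR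
    (by rw [hform]; exact hΛ)
  rwa [hform, hcard] at key

theorem params {ω y e : ℕ} (hy : 2 ≤ y) (y1 : y ^ (6 * ω + 16) ≤ e) :
    ∃ Z : ℕ, e ≤ Z ^ 2 ∧ Z ^ 2 ≤ 4 * e ∧ y ^ 3 ≤ Z ∧ (y ^ 3) ^ (ω + 1) * (Z * y ^ 3) ≤ e := by
  have hZ1 := Nat.lt_succ_sqrt' e
  have hZ2 := Nat.sqrt_le' e
  have hZ3 : 4 * (y ^ 3) ^ (ω + 1) * y ^ 3 ≤ e.sqrt := by
    rw [Nat.le_sqrt']
    refine le_trans ?_ y1
    have h1 : 16 ≤ y ^ 4 := le_trans (by norm_num) (Nat.pow_le_pow_left hy 4)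
    calc (4 * (y ^ 3) ^ (ω + 1) * y ^ 3) ^ 2 = 16 * y ^ (6 * ω + 12) := by ring
      _ ≤ y ^ 4 * y ^ (6 * ω + 12) := Nat.mul_le_mul_right _ h1
      _ = _ := by ring
  generalize e.sqrt = z at *
  have hT : 1 ≤ (y ^ 3) ^ (ω + 1) := Nat.one_le_pow _ _ (pow_pos (by omega) _)
  have hD : 1 ≤ y ^ 3 := Nat.one_le_pow _ _ (by omega)
  generalize (y ^ 3) ^ (ω + 1) = T at *
  generalize y ^ 3 = D at *
  have h1 : D ≤ T * D := Nat.le_mul_of_pos_left _ hT
  have h2 : 4 * (T * D) ≤ z := by rwa [← mul_assoc]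
  refine ⟨z + 1, hZ1.le, by nlinarith, by omega, ?_⟩
  rw [show T * ((z + 1) * D) = (T * D) * (z + 1) by ring]
  generalize T * D = X at *
  nlinarith

theorem uniform : ∃ C : ℕ, ∀ s e n : ℕ, 4 ≤ s → s ^ (C * s.primeFactors.card) ≤ e →
    H s e n ≠ 0 := by
  obtain ⟨c, hc, hB⟩ := lower
  obtain ⟨C0, hC0⟩ := pow_unbounded_of_one_lt (360000 * c) (show (1 : ℝ) < 4 by norm_num)
  refine ⟨(C0 + 6) * 22, fun s e n hs he h => ?_⟩
  have hω1 : 1 ≤ s.primeFactors.card :=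
    card_pos.mpr (Nat.nonempty_primeFactors.mpr (by omega))
  have hω2 : s.primeFactors.card ≤ s := by
    have : s.primeFactors ⊆ Icc 1 s := fun q hq => mem_Icc.mpr
      ⟨(Nat.prime_of_mem_primeFactors hq).pos, Nat.le_of_mem_primeFactors hq⟩
    simpa using card_le_card this
  replace hB := hB s e n
  obtain ⟨ω, hω⟩ : ∃ ω, ω = s.primeFactors.card := ⟨_, rfl⟩
  rw [← hω] at he hω1 hω2 hB
  obtain ⟨y, y1, y2, y3⟩ : ∃ y, y ^ (6 * ω + 16) ≤ e ∧ e < (y + 1) ^ (6 * ω + 16) ∧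
      s ^ (C0 + 6) ≤ y := by
    refine ⟨Nat.nthRoot (6 * ω + 16) e, Nat.pow_nthRoot_le_iff.mpr (Or.inl (by omega)),
      Nat.lt_pow_nthRoot_add_one (by omega) _, (Nat.le_nthRoot_iff (by omega)).mpr ?_⟩
    refine le_trans ?_ he
    rw [← pow_mul, mul_assoc]
    exact Nat.pow_le_pow_right (by omega) (Nat.mul_le_mul_left _ (by omega))
  have hy6 : s ^ 6 ≤ y := le_trans (Nat.pow_le_pow_right (by omega) (by omega)) y3
  have hs4 : 256 ≤ s ^ 4 := le_trans (by norm_num) (Nat.pow_le_pow_left hs 4)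
  have hy2 : 256 * s ^ 2 ≤ y := le_trans (by
    rw [show s ^ 6 = s ^ 4 * s ^ 2 by ring]; exact Nat.mul_le_mul_right _ hs4) hy6
  have hss : s ≤ s ^ 2 := Nat.le_self_pow (by norm_num) s
  have hye : y ≤ e := le_trans (Nat.le_self_pow (by omega) y) y1
  have hn : e < n := by
    by_contra hle
    obtain ⟨t, rfl⟩ : ∃ t, s = t + 1 := ⟨s - 1, by omega⟩
    exact (H_pos_of_le e (e - n) n (by omega) t).ne' h
  obtain ⟨p, p1, p2, hup⟩ := upper hs (by omega) hn h
  obtain ⟨Z, hZ1, hZ2, hZ3, hZ4⟩ := params (by omega) y1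
  have hD : y ≤ y ^ 3 := Nat.le_self_pow (by norm_num) y
  have hR : Z ≤ Z * y ^ 3 := Nat.le_mul_of_pos_right _ (by omega)
  obtain ⟨r, r1, r2, hlow⟩ := hB p (y ^ 3) (Z * y ^ 3) hs (hy2.trans hye) (by omega) p1 p2 h
    (by omega) (by omega)
  have hre : r ≤ e := r2.trans hZ4
  have hS : (4 : ℝ) ≤ s := by exact_mod_cast hs
  have hY : (1 : ℝ) ≤ y := by exact_mod_cast (by omega)
  have hnum := numeric (c := c) (S := s) (E := e) (Z := Z) (D := (y ^ 3 : ℕ)) (r := r)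
    (W := (6 * ω + 16 : ℕ)) (y := y) hc hS (by
      have h1 : (4 : ℝ) ^ C0 ≤ (s : ℝ) ^ C0 := pow_le_pow_left₀ (by norm_num) hS C0
      have h2 : (s : ℝ) ^ (C0 + 6) ≤ y := by exact_mod_cast y3
      rw [pow_add] at h2
      exact le_trans (mul_le_mul_of_nonneg_right (by linarith) (by positivity)) h2)
    hY (by push_cast; rfl) (by exact_mod_cast (by omega)) (by exact_mod_cast hZ1)
    (by exact_mod_cast hZ2) (by exact_mod_cast hZ3)
    (by exact_mod_cast (by omega)) (by exact_mod_cast r1) (by exact_mod_cast hre)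
    (Real.log_natCast_nonneg r) (by
      have h1 : (r : ℝ) ≤ ((y : ℝ) + 1) ^ (6 * ω + 16) := by exact_mod_cast hre.trans y2.le
      have h2 := Real.log_le_log (by exact_mod_cast (by omega)) h1
      rw [Real.log_pow] at h2
      refine h2.trans (mul_le_mul_of_nonneg_left ?_ (Nat.cast_nonneg _))
      exact (Real.log_le_sub_one_of_pos (by linarith)).trans (by linarith))
  have hfin := (Real.exp_le_exp.mpr (neg_le_neg hnum)).trans (hlow.trans hup)
  have hE : (256 : ℝ) * s ^ 2 ≤ e := by exact_mod_cast hy2.trans hye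
  have h8 : (2 : ℝ) < e / (8 * (s : ℝ) ^ 2) := by
    have : (0 : ℝ) < (s : ℝ) ^ 2 := by positivity
    rw [lt_div_iff₀ (by positivity)]; linarith
  rw [show -((e : ℝ) / (8 * (s : ℝ) ^ 2)) = e / (8 * (s : ℝ) ^ 2) + -(e / (4 * (s : ℝ) ^ 2)) by
    field_simp; ring, Real.exp_add] at hfin
  have h9 := le_of_mul_le_mul_right hfin (Real.exp_pos _)
  linarith [Real.add_one_le_exp ((e : ℝ) / (8 * (s : ℝ) ^ 2))]

end Pool.Agent.Lib.MP_b5d28a_nt.H33
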